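import Pool.Agent.Work.MP_1b6412_co.Cone

/-! An uncountable set of points above `x` at which infinitely many points below `x` are alive
gives an `(ℵ₀, ℵ₁)`-minor. -/

set_option autoImplicit false

open Set Cardinal Ordinal

namespace Pool.Agent.AT

universe u v w

theorem am_zorn {T : Type u} [PartialOrder T] {Ω : Type v} [LinearOrder Ω]
    (hΩ : OmLike Ω) {h : T → Ω} (hc : ∀ a : Ω, {x | h x < a}.Countable)
    (hmono : ∀ x y : T, x < y → h x < h y)
    (K : Set T) (hK : ¬ K.Countable) (rho : T → Ω) (hrho : ∀ z ∈ K, h z < rho z) :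
    ∃ B ⊆ K, ¬ B.Countable ∧ B.PairwiseDisjoint (fun z => Cone h z (rho z)) := by
  obtain ⟨B, hB⟩ := zorn_subset {B : Set T | B ⊆ K ∧ B.PairwiseDisjoint
      (fun z => Cone h z (rho z))} (by
    intro c hc' hchain
    refine ⟨⋃₀ c, ⟨?_, ?_⟩, fun s hs => subset_sUnion_of_mem hs⟩
    · exact sUnion_subset fun s hs => (hc' hs).1
    · rw [pairwiseDisjoint_sUnion hchain.directedOn]
      exact fun s hs => (hc' hs).2)
  refine ⟨B, hB.prop.1, ?_, hB.prop.2⟩
  intro hBc
  obtain ⟨δ, hδ⟩ := hΩ.bdd (rho '' B) (hBc.image rho)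
  obtain ⟨z', hz'K, hz'⟩ : ∃ z' ∈ K, ¬ h z' < δ := by
    by_contra hcon
    push Not at hcon
    exact hK ((hc δ).mono hcon)
  rw [not_lt] at hz'
  have hins : insert z' B ∈ {B : Set T | B ⊆ K ∧ B.PairwiseDisjoint
      (fun z => Cone h z (rho z))} := by
    refine ⟨insert_subset hz'K hB.prop.1, ?_⟩
    refine hB.prop.2.insert ?_
    intro z hz _
    rw [Set.disjoint_left]
    intro t ht1 ht2
    have h1 : rho z < δ := hδ _ ⟨z, hz, rfl⟩
    have h2 : h t < rho z := ht2.2
    have h3 : h z' ≤ h t := by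
      rcases eq_or_lt_of_le ht1.1 with h0 | h0
      · rw [h0]
      · exact (hmono _ _ h0).le
    exact absurd (h3.trans_lt (h2.trans h1)) (not_lt.mpr hz')
  have hz'B : z' ∈ B := hB.le_of_ge hins (subset_insert _ _) (mem_insert _ _)
  have h1 : rho z' < δ := hδ _ ⟨z', hz'B, rfl⟩
  exact absurd ((hrho z' hz'K).trans h1) (not_lt.mpr hz')

theorem aleph_minor {T : Type u} [PartialOrder T] {Ω : Type v} [LinearOrder Ω]
    [WellFoundedLT Ω] (hΩ : OmLike Ω) {h : T → Ω} {G : SimpleGraph T} (hT : TreeData h G)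
    (hcard : #T = ℵ₁) (x : T)
    (hK : ¬ {z | x ≤ z ∧ {y | y < x ∧ Al G y z}.Infinite}.Countable) :
    ∃ (A B : Type u) (H : SimpleGraph (A ⊕ B)), IsAlephGraph H ∧ IsMinor H G := by
  classical
  set K := {z | x ≤ z ∧ {y | y < x ∧ Al G y z}.Infinite} with hKdef
  have hbelow : {y | y < x}.Countable :=
    (hT.ctbl (h x)).mono (fun y hy => hT.mono y x hy)
  -- choice of neighbours
  have hnb : ∀ z y : T, ∃ y1 : T, Al G y z → z ≤ y1 ∧ G.Adj y y1 := by
    intro z y
    by_cases hal : Al G y z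
    · obtain ⟨y1, h1⟩ := hal.2
      exact ⟨y1, fun _ => h1⟩
    · exact ⟨z, fun h' => absurd h' hal⟩
  choose nb hnb using hnb
  have hrho : ∀ z : T, ∃ r : Ω, h z < r ∧ ∀ y, y < x → Al G y z → h (nb z y) < r := by
    intro z
    obtain ⟨r, hr⟩ := hΩ.bdd ({h z} ∪ (fun y => h (nb z y)) '' {y | y < x})
      ((countable_singleton _).union (hbelow.image _))
    refine ⟨r, hr _ (Or.inl rfl), fun y hy _ => hr _ (Or.inr ⟨y, hy, rfl⟩)⟩
  choose rho hrho1 hrho2 using hrho
  obtain ⟨B, hBK, hBc, hBd⟩ := am_zorn hΩ hT.ctbl hT.mono K hK rho (fun z _ => hrho1 z)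
  have hadj : ∀ z ∈ B, ∀ y, y < x → Al G y z → ∃ y' ∈ Cone h z (rho z), G.Adj y y' := by
    intro z hz y hy hal
    exact ⟨nb z y, ⟨(hnb z y hal).1, hrho2 z y hy hal⟩, (hnb z y hal).2⟩
  have hBne : B.Nonempty := by
    rw [nonempty_iff_ne_empty]
    intro h0
    exact hBc (h0 ▸ countable_empty)
  let H : SimpleGraph ({y : T // y < x} ⊕ B) := SimpleGraph.fromRel (fun p q =>
    ∃ (a : {y : T // y < x}) (b : B), p = Sum.inl a ∧ q = Sum.inr b ∧
      ∃ y ∈ Cone h b.1 (rho b.1), G.Adj a.1 y)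
  have hH : ∀ (a : {y : T // y < x}) (b : B), H.Adj (Sum.inl a) (Sum.inr b) ↔
      ∃ y ∈ Cone h b.1 (rho b.1), G.Adj a.1 y := by
    intro a b
    constructor
    · intro hh
      rw [SimpleGraph.fromRel_adj] at hh
      obtain ⟨-, ⟨a', b', h1, h2, h3⟩ | ⟨a', b', h1, h2, h3⟩⟩ := hh
      · rw [Sum.inl.injEq] at h1
        rw [Sum.inr.injEq] at h2
        subst h1
        subst h2
        exact h3
      · exact absurd h1 (by simp)
    · intro hh
      rw [SimpleGraph.fromRel_adj]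
      exact ⟨by simp, Or.inl ⟨a, b, rfl, rfl, hh⟩⟩
  refine ⟨{y : T // y < x}, B, H, ⟨?_, ?_, ?_, ?_, ?_⟩, ?_⟩
  · have h1 : Countable {y : T // y < x} := hbelow
    have h2 : Infinite {y : T // y < x} := by
      obtain ⟨z, hz⟩ := hBne
      have h3 : {y | y < x}.Infinite := (hBK hz).2.mono (fun y hy => hy.1)
      exact h3.to_subtype
    exact Cardinal.mk_eq_aleph0 _
  · apply le_antisymm
    · rw [← hcard]
      exact Cardinal.mk_set_le B
    · rw [← Cardinal.succ_aleph0]
      apply Order.succ_le_of_lt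
      rw [← not_le, Cardinal.le_aleph0_iff_set_countable]
      exact hBc
  · intro a a'
    simp [H]
  · intro b b'
    simp [H]
  · intro b
    have h1 := (hBK b.2).2
    apply Set.Infinite.of_image Subtype.val
    refine h1.mono ?_
    rintro y ⟨hy1, hy2⟩
    refine ⟨⟨y, hy1⟩, ?_, rfl⟩
    change H.Adj _ _
    rw [hH]
    exact hadj b.1 b.2 y hy1 hy2
  · refine ⟨Sum.elim (fun a => {a.1}) (fun b => Cone h b.1 (rho b.1)), ?_, ?_, ?_⟩
    · rintro (a | b)
      · simp only [Sum.elim_inl]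
        have : Nonempty ({a.1} : Set T) := ⟨⟨a.1, rfl⟩⟩
        exact ⟨SimpleGraph.Preconnected.of_subsingleton⟩
      · exact cone_connected hT b.1 (rho b.1) (hrho1 b.1)
    · rintro (a | b) (a' | b') hne
      · simp only [Sum.elim_inl]
        rw [disjoint_singleton]
        intro h0
        exact hne (congrArg Sum.inl (Subtype.ext h0))
      · simp only [Sum.elim_inl, Sum.elim_inr]
        rw [disjoint_singleton_left]
        intro h0
        exact absurd (((hBK b'.2).1.trans h0.1).trans_lt a.2) (lt_irrefl _)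
      · simp only [Sum.elim_inl, Sum.elim_inr]
        rw [disjoint_singleton_right]
        intro h0
        exact absurd (((hBK b.2).1.trans h0.1).trans_lt a'.2) (lt_irrefl _)
      · simp only [Sum.elim_inr]
        exact hBd b.2 b'.2 (fun h0 => hne (congrArg Sum.inr (Subtype.ext h0)))
    · rintro (a | b) (a' | b') hadj'
      · simp [H] at hadj'
      · rw [hH] at hadj'
        obtain ⟨y, hy1, hy2⟩ := hadj'
        exact ⟨a.1, rfl, y, hy1, hy2⟩
      · rw [H.adj_comm, hH] at hadj'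
        obtain ⟨y, hy1, hy2⟩ := hadj'
        exact ⟨y, hy1, a'.1, rfl, hy2.symm⟩
      · simp [H] at hadj'

end Pool.Agent.AT
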