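import Pool.Agent.Work.MP_1b6412_co.Omega

/-! Assembly for MP_1b6412_co: inside a forest whose branches are attached to a stationary set
there is a tree of sequences of countable ordinals with stationary many tops. -/

set_option autoImplicit false

open Set Cardinal Ordinal

namespace Pool.Agent.AT

universe u v w

/-- the hypotheses of the assembly -/
structure AsmData {D : Type w} {Ω : Type v} [LinearOrder Ω] (hD : D → Ω) (p : D → D)
    (dep : D → ℕ) (S : Set Ω) (b : Ω → ℕ → D) : Prop where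
  om : OmLike Ω
  hc : ∀ a, {d | hD d < a}.Countable
  hp : ∀ d, dep d ≠ 0 → hD (p d) < hD d ∧ dep d = dep (p d) + 1
  hS : Stat S
  hb0 : ∀ s ∈ S, ∀ n, dep (b s n) = n
  hb1 : ∀ s ∈ S, ∀ n, p (b s (n + 1)) = b s n
  hb2 : ∀ s ∈ S, ∀ n, hD (b s n) < s
  hb3 : ∀ s ∈ S, ∀ a < s, ∃ n, a ≤ hD (b s n)

/-- ancestors -/
inductive AsmAnc {D : Type w} (p : D → D) (dep : D → ℕ) (d : D) : D → Prop
  | refl : AsmAnc p dep d d
  | step (e : D) : dep e ≠ 0 → AsmAnc p dep d (p e) → AsmAnc p dep d e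

/-- nodes lying on the branches of stationary many tops -/
def asmDp {D : Type w} {Ω : Type v} [LinearOrder Ω] (dep : D → ℕ) (S : Set Ω) (b : Ω → ℕ → D) :
    Set D := {d | Stat {s | s ∈ S ∧ b s (dep d) = d}}

/-- nodes with uncountably many children -/
def asmW {D : Type w} {Ω : Type v} [LinearOrder Ω] (p : D → D) (dep : D → ℕ) (S : Set Ω)
    (b : Ω → ℕ → D) : Set D :=
  {d | d ∈ asmDp dep S b ∧ ¬ {e | e ∈ asmDp dep S b ∧ dep e ≠ 0 ∧ p e = d}.Countable}

open Classical in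
/-- the last node of `W` on the way to `z` -/
noncomputable def asmOmAux {D : Type w} (p : D → D) (W : Set D) : ℕ → D → D
  | 0, z => z
  | k + 1, z => if z ∈ W then z else asmOmAux p W k (p z)

noncomputable def asmOm {D : Type w} (p : D → D) (dep : D → ℕ) (W : Set D) (z : D) : D :=
  asmOmAux p W (dep z) z

theorem asmOm_mem {D : Type w} (p : D → D) (dep : D → ℕ) (W : Set D) {z : D} (hz : z ∈ W) :
    asmOm p dep W z = z := by
  unfold asmOm
  cases h : dep z with
  | zero => rfl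
  | succ k => simp only [asmOmAux, if_pos hz]

section

variable {D : Type w} {Ω : Type v} [LinearOrder Ω] {hD : D → Ω} {p : D → D}
    {dep : D → ℕ} {S : Set Ω} {b : Ω → ℕ → D}

theorem AsmData.om_step (h : AsmData hD p dep S b) (W : Set D) {z : D} (hz : z ∉ W)
    (h0 : dep z ≠ 0) : asmOm p dep W z = asmOm p dep W (p z) := by
  unfold asmOm
  rw [(h.hp z h0).2]
  simp only [asmOmAux, if_neg hz]

theorem AsmData.lt_h (h : AsmData hD p dep S b) {s : Ω} (hs : s ∈ S) (n : ℕ) :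
    hD (b s n) < hD (b s (n + 1)) := by
  have h1 := (h.hp (b s (n + 1)) (by rw [h.hb0 s hs]; omega)).1
  rwa [h.hb1 s hs] at h1

theorem AsmData.le_h (h : AsmData hD p dep S b) {s : Ω} (hs : s ∈ S) {m n : ℕ} (hmn : m ≤ n) :
    hD (b s m) ≤ hD (b s n) :=
  monotone_nat_of_le_succ (fun n => (h.lt_h hs n).le) hmn

theorem AsmData.keyX (h : AsmData hD p dep S b) {x : D} {A : Set D}
    (hA : ∀ y ∈ A, {e | e ∈ A ∧ dep e ≠ 0 ∧ p e = y}.Countable) {S' : Set Ω} (hS' : Stat S')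
    (hsub : S' ⊆ S) (hx : ∀ s ∈ S', b s (dep x) = x)
    (hin : ∀ s ∈ S', ∀ n, dep x ≤ n → b s n ∈ A) : False := by
  obtain ⟨s0, hs0, -⟩ := hS' id
  have hxA : x ∈ A := by
    have := hin s0 hs0 (dep x) le_rfl
    rwa [hx s0 hs0] at this
  let Q : ℕ → Set D := fun k => Nat.rec {x} (fun _ q => {e | e ∈ A ∧ dep e ≠ 0 ∧ p e ∈ q}) k
  have hQ0 : Q 0 = {x} := rfl
  have hQ1 : ∀ k, Q (k + 1) = {e | e ∈ A ∧ dep e ≠ 0 ∧ p e ∈ Q k} := fun k => rfl
  have hQA : ∀ k, Q k ⊆ A := by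
    intro k
    cases k with
    | zero => rw [hQ0]; exact singleton_subset_iff.2 hxA
    | succ k => rw [hQ1]; exact fun e he => he.1
  have hQc : ∀ k, (Q k).Countable := by
    intro k
    induction k with
    | zero => rw [hQ0]; exact countable_singleton x
    | succ k ih =>
      refine (ih.biUnion (fun y hy => hA y (hQA k hy))).mono ?_
      intro e he
      rw [hQ1] at he
      exact mem_biUnion he.2.2 ⟨he.1, he.2.1, rfl⟩
  have hbQ : ∀ s ∈ S', ∀ k, b s (dep x + k) ∈ Q k := by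
    intro s hs k
    induction k with
    | zero => rw [hQ0]; exact hx s hs
    | succ k ih =>
      rw [hQ1]
      refine ⟨hin s hs _ (by omega), ?_, ?_⟩
      · rw [h.hb0 s (hsub hs)]; omega
      · have := h.hb1 s (hsub hs) (dep x + k)
        rw [← add_assoc, this]
        exact ih
  have hU : (⋃ k, Q k).Countable := countable_iUnion hQc
  obtain ⟨β, hβ⟩ := h.om.bdd (hD '' ⋃ k, Q k) (hU.image hD)
  obtain ⟨s, hs, hsβ⟩ := hS'.unbdd β
  obtain ⟨n, hn⟩ := h.hb3 s (hsub hs) β hsβ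
  obtain ⟨k, hk⟩ := Nat.exists_eq_add_of_le (le_max_right n (dep x))
  have h1 := h.le_h (hsub hs) (le_max_left n (dep x))
  have h2 := hβ _ (mem_image_of_mem hD (mem_iUnion.2 ⟨k, hbQ s hs k⟩))
  rw [← hk] at h2
  exact absurd (hn.trans h1) (not_le.2 h2)

theorem AsmData.dp_closed (h : AsmData hD p dep S b) {d : D} (hd : d ∈ asmDp dep S b)
    (h0 : dep d ≠ 0) : p d ∈ asmDp dep S b := by
  refine Stat.mono (hd : Stat _) ?_
  rintro s ⟨hs, hs'⟩
  refine ⟨hs, ?_⟩
  have h1 := (h.hp d h0).2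
  rw [h1] at hs'
  have h2 := h.hb1 s hs (dep (p d))
  rw [hs'] at h2
  exact h2.symm

theorem AsmData.ns1 (h : AsmData hD p dep S b) :
    ¬ Stat (S \ {s | s ∈ S ∧ ∀ n, b s n ∈ asmDp dep S b}) := by
  intro hst
  have h1 : ∀ s, ∃ n, s ∈ S \ {s | s ∈ S ∧ ∀ n, b s n ∈ asmDp dep S b} →
      b s n ∉ asmDp dep S b := by
    intro s
    by_cases hs : s ∈ S \ {s | s ∈ S ∧ ∀ n, b s n ∈ asmDp dep S b}
    · have h2 := hs.2
      simp only [mem_ofPred_eq, not_and, not_forall] at h2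
      obtain ⟨n, hn⟩ := h2 hs.1
      exact ⟨n, fun _ => hn⟩
    · exact ⟨0, fun h => absurd h hs⟩
  choose N hN using h1
  obtain ⟨d, hd⟩ := hst.fodor h.om hD h.hc (fun s => b s (N s)) (fun s hs => h.hb2 s hs.1 _)
  have hdp : d ∈ asmDp dep S b := by
    refine Stat.mono hd ?_
    rintro s ⟨hs, hs'⟩
    refine ⟨hs.1, ?_⟩
    have : dep d = N s := by rw [← hs', h.hb0 s hs.1]
    rw [this]
    exact hs'
  obtain ⟨s, ⟨hs, hs'⟩, -⟩ := hd id
  have := hN s hs
  rw [show b s (N s) = d from hs'] at this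
  exact this hdp

theorem AsmData.inter1 (h : AsmData hD p dep S b) {T : Set Ω} (hT : Stat T) (hTS : T ⊆ S) :
    Stat (T ∩ {s | s ∈ S ∧ ∀ n, b s n ∈ asmDp dep S b}) := by
  rcases hT.split {s | s ∈ S ∧ ∀ n, b s n ∈ asmDp dep S b} with h1 | h1
  · exact h1
  · exact absurd (h1.mono (sdiff_subset_sdiff_left hTS)) h.ns1

theorem AsmData.anc_branch (h : AsmData hD p dep S b) {s : Ω} (hs : s ∈ S) {d : D}
    (hd : b s (dep d) = d) {n : ℕ} (hn : dep d ≤ n) : AsmAnc p dep d (b s n) := by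
  induction n, hn using Nat.le_induction with
  | base => rw [hd]; exact AsmAnc.refl
  | succ n hn ih =>
    refine AsmAnc.step _ (by rw [h.hb0 s hs]; omega) ?_
    rw [h.hb1 s hs]
    exact ih

theorem AsmData.exists_W (h : AsmData hD p dep S b) {d : D} (hd : d ∈ asmDp dep S b) :
    ∃ w ∈ asmW p dep S b, AsmAnc p dep d w := by
  by_contra hcon
  push Not at hcon
  refine h.keyX (x := d) (A := {z | z ∈ asmDp dep S b ∧ AsmAnc p dep d z}) ?_
    (h.inter1 (T := {s | s ∈ S ∧ b s (dep d) = d}) hd (fun s hs => hs.1))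
    (fun s hs => hs.1.1) (fun s hs => hs.1.2) ?_
  · rintro y ⟨hy1, hy2⟩
    by_contra hcc
    refine hcon y ⟨hy1, fun hc => hcc (hc.mono ?_)⟩ hy2
    rintro e ⟨he1, he2⟩
    exact ⟨he1.1, he2⟩
  · intro s hs n hn
    exact ⟨hs.2.2 n, h.anc_branch hs.1.1 hs.1.2 hn⟩

theorem AsmData.ns2 (h : AsmData hD p dep S b) :
    ¬ Stat ({s | s ∈ S ∧ ∀ n, b s n ∈ asmDp dep S b} \
      {s | ∀ N, ∃ n, N ≤ n ∧ b s n ∈ asmW p dep S b}) := by
  intro hst
  have h1 : ∀ s, ∃ N, s ∈ {s | s ∈ S ∧ ∀ n, b s n ∈ asmDp dep S b} \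
      {s | ∀ N, ∃ n, N ≤ n ∧ b s n ∈ asmW p dep S b} →
      ∀ n, N ≤ n → b s n ∉ asmW p dep S b := by
    intro s
    by_cases hs : s ∈ {s | s ∈ S ∧ ∀ n, b s n ∈ asmDp dep S b} \
      {s | ∀ N, ∃ n, N ≤ n ∧ b s n ∈ asmW p dep S b}
    · have h2 := hs.2
      simp only [mem_ofPred_eq, not_forall, not_exists, not_and] at h2
      obtain ⟨n, hn⟩ := h2
      exact ⟨n, fun _ => hn⟩
    · exact ⟨0, fun h => absurd h hs⟩
  choose N hN using h1
  obtain ⟨x, hx⟩ := hst.fodor h.om hD h.hc (fun s => b s (N s)) (fun s hs => h.hb2 s hs.1.1 _)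
  have hdx : ∀ s, s ∈ {s | s ∈ S ∧ ∀ n, b s n ∈ asmDp dep S b} \
      {s | ∀ N, ∃ n, N ≤ n ∧ b s n ∈ asmW p dep S b} ∧ b s (N s) = x → dep x = N s := by
    rintro s ⟨hs, hs'⟩
    rw [← hs', h.hb0 s hs.1.1]
  refine h.keyX (x := x) (A := {z | z ∈ asmDp dep S b ∧ z ∉ asmW p dep S b}) ?_ hx
    (fun s hs => hs.1.1.1) ?_ ?_
  · rintro y ⟨hy1, hy2⟩
    by_contra hcc
    refine hy2 ⟨hy1, fun hc => hcc (hc.mono ?_)⟩
    rintro e ⟨he1, he2⟩
    exact ⟨he1.1, he2⟩
  · intro s hs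
    rw [hdx s hs]
    exact hs.2
  · intro s hs n hn
    rw [hdx s hs] at hn
    exact ⟨hs.1.1.2 n, hN s hs.1 n hn⟩

theorem AsmData.exists_w0 (h : AsmData hD p dep S b) :
    ∃ w0 ∈ asmW p dep S b, Stat {s | s ∈ S ∧ (∀ n, b s n ∈ asmDp dep S b) ∧
      (∀ N, ∃ n, N ≤ n ∧ b s n ∈ asmW p dep S b) ∧ b s (dep w0) = w0} := by
  have h1 := h.inter1 h.hS Subset.rfl
  have h2 : Stat {s | s ∈ S ∧ (∀ n, b s n ∈ asmDp dep S b) ∧
      (∀ N, ∃ n, N ≤ n ∧ b s n ∈ asmW p dep S b)} := by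
    rcases h1.split {s | ∀ N, ∃ n, N ≤ n ∧ b s n ∈ asmW p dep S b} with h2 | h2
    · exact h2.mono (fun s hs => ⟨hs.1.1, hs.1.2.2, hs.2⟩)
    · refine absurd (Stat.mono h2 ?_) h.ns2
      exact fun s hs => ⟨hs.1.2, hs.2⟩
  have h3 : ∀ s, ∃ n, s ∈ {s | s ∈ S ∧ (∀ n, b s n ∈ asmDp dep S b) ∧
      (∀ N, ∃ n, N ≤ n ∧ b s n ∈ asmW p dep S b)} → b s n ∈ asmW p dep S b := by
    intro s
    by_cases hs : s ∈ {s | s ∈ S ∧ (∀ n, b s n ∈ asmDp dep S b) ∧
      (∀ N, ∃ n, N ≤ n ∧ b s n ∈ asmW p dep S b)}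
    · obtain ⟨n, -, hn⟩ := hs.2.2 0
      exact ⟨n, fun _ => hn⟩
    · exact ⟨0, fun h => absurd h hs⟩
  choose N hN using h3
  obtain ⟨w0, hw0⟩ := h2.fodor h.om hD h.hc (fun s => b s (N s)) (fun s hs => h.hb2 s hs.1 _)
  obtain ⟨s, ⟨hs, hs'⟩, -⟩ := hw0 id
  refine ⟨w0, ?_, ?_⟩
  · rw [← show b s (N s) = w0 from hs']
    exact hN s hs
  · refine hw0.mono ?_
    rintro t ⟨ht, ht'⟩
    refine ⟨ht.1, ht.2.1, ht.2.2, ?_⟩
    have : dep w0 = N t := by rw [← ht', h.hb0 t ht.1]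
    rw [this]
    exact ht'

theorem AsmData.anc_dep (h : AsmData hD p dep S b) {d e : D} (hde : AsmAnc p dep d e) :
    dep d ≤ dep e := by
  induction hde with
  | refl => exact le_rfl
  | step e he _ ih =>
    have := (h.hp e he).2
    omega

theorem AsmData.anc_unique (h : AsmData hD p dep S b) {d e z : D} (h1 : AsmAnc p dep d z)
    (h2 : AsmAnc p dep e z) (hde : dep d = dep e) : d = e := by
  induction h1 with
  | refl =>
    cases h2 with
    | refl => rfl
    | step _ h0 h3 =>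
      have h4 := h.anc_dep h3
      have h5 := (h.hp d h0).2
      omega
  | step z h0 h3 ih =>
    cases h2 with
    | refl =>
      have h4 := h.anc_dep h3
      have h5 := (h.hp e h0).2
      omega
    | step _ _ h4 => exact ih h4

theorem asmAnc_trans {d e z : D} (h1 : AsmAnc p dep d e) (h2 : AsmAnc p dep e z) :
    AsmAnc p dep d z := by
  induction h2 with
  | refl => exact h1
  | step z h0 _ ih => exact AsmAnc.step z h0 ih

/-- the next nodes of `W` above `w` -/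
def asmNxt (p : D → D) (dep : D → ℕ) (W : Set D) (w0 w : D) : Set D :=
  {z | z ∈ W ∧ dep z ≠ 0 ∧ AsmAnc p dep w0 (p z) ∧ asmOm p dep W (p z) = w}

theorem AsmData.om_between (h : AsmData hD p dep S b) (W : Set D) {w e : D} (hw : w ∈ W)
    (he0 : dep e ≠ 0) (hew : p e = w) {y : D} (hy : AsmAnc p dep e y)
    (hno : ∀ u ∈ W, AsmAnc p dep e u → dep y < dep u) : asmOm p dep W y = w := by
  induction hy with
  | refl =>
    have h1 : e ∉ W := fun he => absurd (hno e he AsmAnc.refl) (lt_irrefl _)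
    rw [h.om_step W h1 he0, hew, asmOm_mem p dep W hw]
  | step y h0 hy ih =>
    have h1 : y ∉ W := fun he => absurd (hno y he (AsmAnc.step y h0 hy)) (lt_irrefl _)
    rw [h.om_step W h1 h0]
    refine ih (fun u hu hu' => ?_)
    have h2 := hno u hu hu'
    have h3 := (h.hp y h0).2
    omega

theorem AsmData.nxt_unc (h : AsmData hD p dep S b) {w0 w : D} (hw : w ∈ asmW p dep S b)
    (hw0 : AsmAnc p dep w0 w) : ¬ (asmNxt p dep (asmW p dep S b) w0 w).Countable := by
  intro hcount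
  have h1 : ∀ e, ∃ z, e ∈ {e | e ∈ asmDp dep S b ∧ dep e ≠ 0 ∧ p e = w} →
      z ∈ asmNxt p dep (asmW p dep S b) w0 w ∧ AsmAnc p dep e z := by
    intro e
    by_cases he : e ∈ {e | e ∈ asmDp dep S b ∧ dep e ≠ 0 ∧ p e = w}
    · obtain ⟨he1, he2, he3⟩ := he
      obtain ⟨w', hw', hew'⟩ := h.exists_W he1
      have hex : ∃ n, ∃ z, z ∈ asmW p dep S b ∧ AsmAnc p dep e z ∧ dep z = n :=
        ⟨_, w', hw', hew', rfl⟩
      classical
      obtain ⟨z, hz1, hz2, hz3⟩ := Nat.find_spec hex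
      have hmin : ∀ u ∈ asmW p dep S b, AsmAnc p dep e u → dep z ≤ dep u := by
        intro u hu hu'
        rw [hz3]
        exact Nat.find_min' hex ⟨u, hu, hu', rfl⟩
      have hw0e : AsmAnc p dep w0 e := AsmAnc.step e he2 (by rw [he3]; exact hw0)
      refine ⟨z, fun _ => ⟨?_, hz2⟩⟩
      have hz2' := hz2
      cases hz2 with
      | refl =>
        refine ⟨hz1, he2, by rw [he3]; exact hw0, ?_⟩
        rw [he3]
        exact asmOm_mem p dep _ hw
      | step _ h0 h3 =>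
        refine ⟨hz1, h0, asmAnc_trans hw0e h3, ?_⟩
        refine h.om_between _ hw he2 he3 h3 (fun u hu hu' => ?_)
        have h4 := hmin u hu hu'
        have h5 := (h.hp z h0).2
        omega
    · exact ⟨e, fun h => absurd h he⟩
  choose z hz using h1
  refine hw.2 (MapsTo.countable_of_injOn (f := z) (fun e he => (hz e he).1) ?_ hcount)
  intro e he e' he' heq
  have h2 := (hz e he).2
  have h3 := (hz e' he').2
  rw [← show z e = z e' from heq] at h3
  refine h.anc_unique h2 h3 ?_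
  have h4 := (h.hp e he.2.1).2
  have h5 := (h.hp e' he'.2.1).2
  rw [he.2.2] at h4
  rw [he'.2.2] at h5
  omega

theorem AsmData.exists_q (h : AsmData hD p dep S b) {w0 : D} (W : Set D) (hw0 : w0 ∈ W) {s : Ω}
    (hs : s ∈ S) (hinf : ∀ N, ∃ n, N ≤ n ∧ b s n ∈ W) (hsw : b s (dep w0) = w0) :
    ∃ q : ℕ → ℕ, q 0 = dep w0 ∧ (∀ j, b s (q j) ∈ W) ∧ (∀ j, q j < q (j + 1)) ∧
      ∀ j n, q j ≤ n → n < q (j + 1) → asmOm p dep W (b s n) = b s (q j) := by
  have hex : ∀ m, ∃ n, m < n ∧ b s n ∈ W := by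
    intro m
    obtain ⟨n, hn1, hn2⟩ := hinf (m + 1)
    exact ⟨n, by omega, hn2⟩
  have hex2 : ∀ m, ∃ n, (m < n ∧ b s n ∈ W) ∧ ∀ k < n, ¬ (m < k ∧ b s k ∈ W) := by
    classical
    intro m
    exact ⟨Nat.find (hex m), Nat.find_spec (hex m), fun k hk => Nat.find_min (hex m) hk⟩
  choose nx hnx1 hnx2 using hex2
  let q : ℕ → ℕ := fun j => Nat.rec (dep w0) (fun _ m => nx m) j
  have hq0 : q 0 = dep w0 := rfl
  have hq1 : ∀ j, q (j + 1) = nx (q j) := fun j => rfl
  have hqW : ∀ j, b s (q j) ∈ W := by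
    intro j
    cases j with
    | zero => rw [hq0, hsw]; exact hw0
    | succ j => rw [hq1]; exact (hnx1 (q j)).2
  refine ⟨q, hq0, hqW, fun j => ?_, fun j n hn1 hn2 => ?_⟩
  · rw [hq1]
    exact (hnx1 (q j)).1
  · rw [hq1] at hn2
    induction n, hn1 using Nat.le_induction with
    | base => exact asmOm_mem p dep W (hqW j)
    | succ n hn ih =>
      have h1 : b s (n + 1) ∉ W := fun h' => hnx2 (q j) (n + 1) hn2 ⟨by omega, h'⟩
      rw [h.om_step W h1 (by rw [h.hb0 s hs]; omega), h.hb1 s hs]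
      exact ih (by omega)

end

/-- two uncountable sets with countable initial segments can be matched -/
theorem asm_enum {D : Type w} {Ω : Type v} [LinearOrder Ω] [WellFoundedLT Ω] (hΩ : OmLike Ω)
    (hD : D → Ω) (hc : ∀ a, {d | hD d < a}.Countable) (X : Set D) (hX : ¬ X.Countable) :
    ∃ e : Ω → D, Function.Injective e ∧ range e = X := by
  have hΩu : ¬ Countable Ω := by
    intro hcc
    obtain ⟨b, hb⟩ := hΩ.bdd univ (countable_univ_iff.2 hcc)
    exact lt_irrefl _ (hb b (mem_univ b))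
  have hΩle : #Ω ≤ ℵ₁ := by
    have h1 : Ordinal.type (fun a b : Ω => a < b) ≤ ω₁ := by
      by_contra hcon
      rw [not_le] at hcon
      obtain ⟨a, ha⟩ := Ordinal.typein_surj (fun a b : Ω => a < b) hcon
      have h2 : (Ordinal.typein (fun a b : Ω => a < b) a).card ≤ ℵ₀ := by
        rw [Ordinal.card_typein]
        exact (hΩ.ctbl a).le_aleph0
      rw [ha, Ordinal.card_omega] at h2
      exact absurd h2 (not_le.2 Cardinal.aleph0_lt_aleph_one)
    have h3 := Ordinal.card_le_card h1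
    rwa [Ordinal.card_type, Ordinal.card_omega] at h3
  have hXle : Cardinal.lift.{v} #X ≤ Cardinal.lift.{w} #Ω := by
    have h1 : ∀ a, ∃ g : D → ℕ, InjOn g {d | hD d = a} := by
      intro a
      obtain ⟨b, hb⟩ := hΩ.bdd {a} (countable_singleton a)
      have h2 : {d | hD d = a}.Countable := (hc b).mono (fun d hd => by
        have h3 : hD d = a := hd
        show hD d < b
        rw [h3]
        exact hb a rfl)
      exact countable_iff_exists_injOn.1 h2
    choose g hg using h1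
    have hinj : Function.Injective (fun d : X => ((hD d.1, g (hD d.1) d.1) : Ω × ℕ)) := by
      intro d d' hdd
      have h2 : hD d.1 = hD d'.1 := congrArg Prod.fst hdd
      have h3 : g (hD d.1) d.1 = g (hD d'.1) d'.1 := congrArg Prod.snd hdd
      rw [← h2] at h3
      exact Subtype.ext (hg (hD d.1) rfl h2.symm h3)
    have h4 := Cardinal.lift_mk_le_lift_mk_of_injective hinj
    have h5 : #(Ω × ℕ) ≤ #Ω := by
      rw [Cardinal.mk_prod]
      simp only [Cardinal.lift_id', Cardinal.mk_eq_aleph0 ℕ, Cardinal.lift_aleph0]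
      have h6 : ℵ₀ ≤ #Ω := by
        by_contra hcon
        rw [not_le] at hcon
        exact hΩu (Cardinal.mk_le_aleph0_iff.1 hcon.le)
      rw [Cardinal.mul_aleph0_eq h6]
    exact h4.trans (Cardinal.lift_le.2 h5)
  have hXge : ℵ₀ < #X := Cardinal.aleph0_lt_mk_iff.2 (not_countable_iff.1 hX)
  have hcard : Cardinal.lift.{v} #X = Cardinal.lift.{w} #Ω := by
    refine le_antisymm hXle ?_
    exact (Cardinal.lift_le_aleph_one.2 hΩle).trans
      (Cardinal.aleph_one_le_iff.2 (Cardinal.aleph0_lt_lift.2 hXge))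
  obtain ⟨f⟩ := Cardinal.lift_mk_eq'.1 hcard
  refine ⟨fun a => (f.symm a).1, ?_, ?_⟩
  · intro a a' haa
    exact f.symm.injective (Subtype.ext haa)
  · ext d
    constructor
    · rintro ⟨a, rfl⟩
      exact (f.symm a).2
    · intro hd
      exact ⟨f ⟨d, hd⟩, by simp⟩

theorem assemble {D : Type w} {Ω : Type v} [LinearOrder Ω] [WellFoundedLT Ω] (hΩ : OmLike Ω)
    (hD : D → Ω) (hc : ∀ a, {d | hD d < a}.Countable) (p : D → D) (dep : D → ℕ)
    (hp : ∀ d, dep d ≠ 0 → hD (p d) < hD d ∧ dep d = dep (p d) + 1)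
    (S : Set Ω) (hS : Stat S) (b : Ω → ℕ → D) (hb0 : ∀ s ∈ S, ∀ n, dep (b s n) = n)
    (hb1 : ∀ s ∈ S, ∀ n, p (b s (n + 1)) = b s n) (hb2 : ∀ s ∈ S, ∀ n, hD (b s n) < s)
    (hb3 : ∀ s ∈ S, ∀ a < s, ∃ n, a ≤ hD (b s n)) :
    ∃ (C : List Ω → Set D) (r : List Ω → D) (S' : Set Ω) (f : Ω → ℕ → Ω),
      (∀ l, r l ∈ C l) ∧ (∀ l, ∀ d ∈ C l, d ≠ r l → dep d ≠ 0 ∧ p d ∈ C l) ∧
      (∀ l m, l ≠ m → Disjoint (C l) (C m)) ∧
      (∀ l a, dep (r (l ++ [a])) ≠ 0 ∧ p (r (l ++ [a])) ∈ C l) ∧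
      S' ⊆ S ∧ Stat S' ∧
      ∀ s ∈ S', (∀ n, f s n < s) ∧ (∀ a < s, ∃ n, a ≤ f s n) ∧ (∀ a < s, ∃ c, a < c ∧ c < s) ∧
        ∀ I : Set ℕ, I.Infinite →
          {j : ℕ | ∃ n ∈ I, b s n ∈ C ((List.range j).map (f s))}.Infinite := by
  have h : AsmData hD p dep S b := ⟨hΩ, hc, hp, hS, hb0, hb1, hb2, hb3⟩
  obtain ⟨w0, hw0, hS3⟩ := h.exists_w0
  set W := asmW p dep S b with hW
  set S3 : Set Ω := {s | s ∈ S ∧ (∀ n, b s n ∈ asmDp dep S b) ∧
      (∀ N, ∃ n, N ≤ n ∧ b s n ∈ W) ∧ b s (dep w0) = w0} with hS3def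
  -- enumerations of the next nodes
  have he : ∀ w, ∃ e : Ω → D, w ∈ W → AsmAnc p dep w0 w →
      Function.Injective e ∧ range e = asmNxt p dep W w0 w := by
    intro w
    by_cases hw : w ∈ W ∧ AsmAnc p dep w0 w
    · obtain ⟨e, he1, he2⟩ := asm_enum hΩ hD hc _ (h.nxt_unc hw.1 hw.2)
      exact ⟨e, fun _ _ => ⟨he1, he2⟩⟩
    · exact ⟨fun _ => w, fun h1 h2 => absurd ⟨h1, h2⟩ hw⟩
  choose e he using he
  have hnxt : ∀ w ∈ W, AsmAnc p dep w0 w → ∀ a, e w a ∈ asmNxt p dep W w0 w := by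
    intro w hw hw' a
    rw [← (he w hw hw').2]
    exact mem_range_self a
  have hnxtA : ∀ w z, z ∈ asmNxt p dep W w0 w → AsmAnc p dep w0 z := by
    intro w z hz
    exact AsmAnc.step z hz.2.1 hz.2.2.1
  let r : List Ω → D := fun l => l.foldl (fun w a => e w a) w0
  have hr0 : r [] = w0 := rfl
  have hr1 : ∀ l a, r (l ++ [a]) = e (r l) a := by
    intro l a
    simp only [r, List.foldl_append, List.foldl_cons, List.foldl_nil]
  have hrW : ∀ l, r l ∈ W ∧ AsmAnc p dep w0 (r l) := by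
    intro l
    induction l using List.reverseRecOn with
    | nil => exact ⟨hw0, AsmAnc.refl⟩
    | append_singleton l a ih =>
      rw [hr1]
      have := hnxt _ ih.1 ih.2 a
      exact ⟨this.1, hnxtA _ _ this⟩
  have hrn : ∀ l a, r (l ++ [a]) ∈ asmNxt p dep W w0 (r l) := by
    intro l a
    rw [hr1]
    exact hnxt _ (hrW l).1 (hrW l).2 a
  have hw0n : ∀ w, w0 ∉ asmNxt p dep W w0 w := by
    intro w hw
    have h1 := h.anc_dep hw.2.2.1
    have h2 := (hp w0 hw.2.1).2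
    omega
  have hrinj : ∀ l m, r l = r m → l = m := by
    intro l
    induction l using List.reverseRecOn with
    | nil =>
      intro m hm
      rcases List.eq_nil_or_concat m with rfl | ⟨m', a, rfl⟩
      · rfl
      · exfalso
        rw [List.concat_eq_append, hr0] at hm
        have := hrn m' a
        rw [← hm] at this
        exact hw0n _ this
    | append_singleton l a ih =>
      intro m hm
      rcases List.eq_nil_or_concat m with rfl | ⟨m', a', rfl⟩
      · exfalso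
        rw [hr0] at hm
        have := hrn l a
        rw [hm] at this
        exact hw0n _ this
      · rw [List.concat_eq_append] at hm ⊢
        have h1 := (hrn l a).2.2.2
        have h2 := (hrn m' a').2.2.2
        rw [← hm, h1] at h2
        have h3 := ih m' h2
        subst h3
        rw [hr1, hr1] at hm
        have h4 := (he _ (hrW l).1 (hrW l).2).1 hm
        rw [h4]
  let C : List Ω → Set D := fun l =>
    {z | z ∈ asmDp dep S b ∧ AsmAnc p dep w0 z ∧ asmOm p dep W z = r l}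
  -- the sequences
  have hq : ∀ s, ∃ (q : ℕ → ℕ) (fs : ℕ → Ω), s ∈ S3 → (q 0 = dep w0 ∧ (∀ j, b s (q j) ∈ W) ∧
      (∀ j, q j < q (j + 1)) ∧
      (∀ j n, q j ≤ n → n < q (j + 1) → asmOm p dep W (b s n) = b s (q j)) ∧
      ∀ j, e (b s (q j)) (fs j) = b s (q (j + 1))) := by
    intro s
    by_cases hs : s ∈ S3
    · obtain ⟨q, hq0, hqW, hqlt, hqom⟩ := h.exists_q W hw0 hs.1 hs.2.2.1 hs.2.2.2
      have hqge : ∀ j, dep w0 ≤ q j := by
        intro j
        rw [← hq0]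
        exact monotone_nat_of_le_succ (fun n => (hqlt n).le) (Nat.zero_le j)
      have hlab : ∀ j, ∃ a, e (b s (q j)) a = b s (q (j + 1)) := by
        intro j
        have h1 : b s (q (j + 1)) ∈ asmNxt p dep W w0 (b s (q j)) := by
          have h2 := hqlt j
          obtain ⟨k, hk⟩ : ∃ k, q (j + 1) = k + 1 := ⟨q (j + 1) - 1, by omega⟩
          refine ⟨hqW _, by rw [hb0 s hs.1]; omega, ?_, ?_⟩
          · rw [hk, hb1 s hs.1]
            exact h.anc_branch hs.1 hs.2.2.2 (by have := hqge j; omega)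
          · rw [hk, hb1 s hs.1]
            exact hqom j k (by omega) (by omega)
        rw [← (he _ (hqW j) (h.anc_branch hs.1 hs.2.2.2 (hqge j))).2] at h1
        exact h1
      choose fs hfs using hlab
      exact ⟨q, fs, fun _ => ⟨hq0, hqW, hqlt, hqom, hfs⟩⟩
    · exact ⟨fun _ => 0, fun _ => s, fun h => absurd h hs⟩
  choose q f hqf using hq
  have hrj : ∀ s ∈ S3, ∀ j, r ((List.range j).map (f s)) = b s (q s j) := by
    intro s hs j
    obtain ⟨h1, h2, h3, h4, h5⟩ := hqf s hs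
    induction j with
    | zero => rw [h1, hs.2.2.2]; rfl
    | succ j ih =>
      rw [List.range_succ, List.map_append, List.map_singleton, hr1, ih]
      exact h5 j
  -- the bounding function
  have hup : ∀ a : Ω, ∃ a', a < a' := by
    intro a
    obtain ⟨b', hb'⟩ := hΩ.bdd {a} (countable_singleton a)
    exact ⟨b', hb' a rfl⟩
  have hcle : ∀ a, {d | hD d ≤ a}.Countable := by
    intro a
    obtain ⟨a', ha'⟩ := hup a
    exact (hc a').mono (fun d hd => lt_of_le_of_lt hd ha')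
  have hΩle : ∀ a : Ω, (Iic a).Countable := by
    intro a
    obtain ⟨a', ha'⟩ := hup a
    exact (hΩ.ctbl a').mono (fun d hd => lt_of_le_of_lt hd ha')
  have hF : ∀ a, ∃ β, (∀ w a', hD w ≤ a → a' ≤ a → hD (e w a') < β) ∧
      (∀ w a', w ∈ W → AsmAnc p dep w0 w → hD w ≤ a → hD (e w a') ≤ a → a' < β) := by
    intro a
    have h1 : (⋃ w ∈ {d | hD d ≤ a}, (fun a' => hD (e w a')) '' Iic a).Countable :=
      (hcle a).biUnion (fun w _ => (hΩle a).image _)
    have h2 : (⋃ w ∈ {d | hD d ≤ a}, {a' | w ∈ W ∧ AsmAnc p dep w0 w ∧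
        hD (e w a') ≤ a}).Countable := by
      refine (hcle a).biUnion (fun w _ => ?_)
      by_cases hw : w ∈ W ∧ AsmAnc p dep w0 w
      · exact MapsTo.countable_of_injOn (f := e w) (t := {d | hD d ≤ a})
          (fun a' ha' => ha'.2.2) ((he w hw.1 hw.2).1.injOn) (hcle a)
      · refine countable_empty.mono ?_
        intro a' ha'
        exact hw ⟨ha'.1, ha'.2.1⟩
    obtain ⟨β, hβ⟩ := hΩ.bdd _ (h1.union h2)
    refine ⟨β, fun w a' hw ha' => ?_, fun w a' hw1 hw2 hw3 hw4 => ?_⟩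
    · exact hβ _ (Or.inl (mem_biUnion (show w ∈ {d | hD d ≤ a} from hw) ⟨a', ha', rfl⟩))
    · exact hβ _ (Or.inr (mem_biUnion (show w ∈ {d | hD d ≤ a} from hw3) ⟨hw1, hw2, hw4⟩))
  choose F hF1 hF2 using hF
  obtain ⟨F', hF'1, hF'2, hF'3⟩ := exists_lim_fun hΩ F
  have hS4 := Stat.closed (S := S3) hS3 F'
  refine ⟨C, r, {s | s ∈ S3 ∧ ∀ a < s, F' a < s}, f, ?_, ?_, ?_, ?_, ?_, hS4, ?_⟩
  · intro l
    exact ⟨(hrW l).1.1, (hrW l).2, asmOm_mem p dep W (hrW l).1⟩
  · rintro l d ⟨hd1, hd2, hd3⟩ hdr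
    have hdW : d ∉ W := by
      intro hdW
      rw [asmOm_mem p dep W hdW] at hd3
      exact hdr hd3
    have hd0 : dep d ≠ 0 := by
      intro hd0
      have : asmOm p dep W d = d := by
        unfold asmOm
        rw [hd0]
        rfl
      rw [this] at hd3
      exact hdr hd3
    refine ⟨hd0, h.dp_closed hd1 hd0, ?_, ?_⟩
    · cases hd2 with
      | refl => exact absurd hw0 hdW
      | step _ _ h3 => exact h3
    · rw [← h.om_step W hdW hd0]
      exact hd3
  · intro l m hlm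
    rw [Set.disjoint_left]
    rintro z ⟨-, -, hz⟩ ⟨-, -, hz'⟩
    exact hlm (hrinj l m (hz.symm.trans hz'))
  · intro l a
    have h1 := hrn l a
    exact ⟨h1.2.1, h.dp_closed h1.1.1 h1.2.1, h1.2.2.1, h1.2.2.2⟩
  · intro s hs
    exact hs.1.1
  · rintro s ⟨hs, hsF⟩
    obtain ⟨hq0, hqW, hqlt, hqom, hqe⟩ := hqf s hs
    have hqmono : StrictMono (q s) := strictMono_nat_of_lt_succ hqlt
    have hqge : ∀ j, dep w0 ≤ q s j := by
      intro j
      rw [← hq0]
      exact hqmono.monotone (Nat.zero_le j)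
    have hqA : ∀ j, AsmAnc p dep w0 (b s (q s j)) := fun j =>
      h.anc_branch hs.1 hs.2.2.2 (hqge j)
    refine ⟨fun n => ?_, fun a ha => ?_, fun a ha => ⟨F' a, hF'1 a, hsF a ha⟩, fun I hI => ?_⟩
    · have h1 := hF2 (hD (b s (q s (n + 1)))) (b s (q s n)) (f s n) (hqW n) (hqA n)
        (h.le_h hs.1 (hqlt n).le) (by rw [hqe n])
      exact h1.trans ((hF'2 _).trans_lt (hsF _ (hb2 s hs.1 _)))
    · by_contra hcon
      push Not at hcon
      have h0 : hD w0 < s := by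
        have := hb2 s hs.1 (dep w0)
        rwa [hs.2.2.2] at this
      obtain ⟨c, hc1, hc2, hc3⟩ := hF'3 s hsF (max a (hD w0)) (max_lt ha h0)
      have h1 : ∀ j, hD (b s (q s j)) < c := by
        intro j
        induction j with
        | zero =>
          rw [hq0, hs.2.2.2]
          exact (le_max_right _ _).trans_lt hc1
        | succ j ih =>
          rw [← hqe j]
          have h2 : f s j < c := (hcon j).trans ((le_max_left _ _).trans_lt hc1)
          refine (hF1 (max (hD (b s (q s j))) (f s j)) _ _ (le_max_left _ _)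
            (le_max_right _ _)).trans (hc3 _ (max_lt ih h2))
      obtain ⟨n, hn⟩ := hb3 s hs.1 c hc2
      have h2 := h.le_h hs.1 (hqmono.le_apply (x := n))
      exact absurd (hn.trans h2) (not_le.2 (h1 n))
    · refine Set.infinite_of_forall_exists_gt (fun J => ?_)
      obtain ⟨n, hnI, hn⟩ := hI.exists_gt (q s (J + 1))
      have hex : ∃ j, n < q s (j + 1) := ⟨n, lt_of_lt_of_le (Nat.lt_succ_self n) hqmono.le_apply⟩
      classical
      obtain ⟨j, hj, hjmin⟩ : ∃ j, n < q s (j + 1) ∧ ∀ k < j, ¬ n < q s (k + 1) :=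
        ⟨Nat.find hex, Nat.find_spec hex, fun k hk => Nat.find_min hex hk⟩
      have hjn : q s j ≤ n := by
        rcases Nat.eq_zero_or_pos j with h1 | h1
        · rw [h1]
          exact (hqmono.monotone (Nat.zero_le (J + 1))).trans hn.le
        · have h2 := hjmin (j - 1) (by omega)
          rw [show j - 1 + 1 = j by omega] at h2
          exact not_lt.1 h2
      refine ⟨j, ⟨n, hnI, hs.2.1 n, h.anc_branch hs.1 hs.2.2.2 ((hqge j).trans hjn), ?_⟩, ?_⟩
      · rw [hqom j n hjn hj, hrj s hs j]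
      · by_contra hcon
        rw [not_lt] at hcon
        have := hqmono.monotone (show j + 1 ≤ J + 1 by omega)
        omega

end Pool.Agent.AT
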