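import Pool.Agent.Work.MP_1b6412_co.Defs2

/-! Truncated cones are connected. -/

set_option autoImplicit false

open Set Cardinal Ordinal

namespace Pool.Agent.AT

universe u v w

theorem cone_connected {T : Type u} [PartialOrder T] {Ω : Type v} [LinearOrder Ω]
    [WellFoundedLT Ω] {h : T → Ω} {G : SimpleGraph T} (hT : TreeData h G) (x : T) (b : Ω)
    (hb : h x < b) : (G.induce (Cone h x b)).Connected := by
  have hx : x ∈ Cone h x b := ⟨le_rfl, hb⟩
  have key : ∀ (o : Ω) (y : T) (hy : y ∈ Cone h x b), h y = o →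
      (G.induce (Cone h x b)).Reachable ⟨x, hx⟩ ⟨y, hy⟩ := by
    intro o
    induction o using WellFoundedLT.induction with
    | _ o IH =>
      intro y hy ho
      by_cases hxy : y = x
      · subst hxy
        exact SimpleGraph.Reachable.refl _
      · have hlt : x < y := lt_of_le_of_ne hy.1 (Ne.symm hxy)
        obtain ⟨y', h1, h2, h3⟩ := hT.cofinal y x hlt
        have h4 := hT.mono y' y h2
        have hy' : y' ∈ Cone h x b := ⟨h1, h4.trans hy.2⟩
        have h5 := IH (h y') (ho ▸ h4) y' hy' rfl
        refine h5.trans (SimpleGraph.Adj.reachable ?_)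
        simpa using h3
  have : Nonempty (Cone h x b) := ⟨⟨x, hx⟩⟩
  rw [SimpleGraph.connected_iff]
  refine ⟨?_, this⟩
  intro u v
  exact (key _ u.1 u.2 rfl).symm.trans (key _ v.1 v.2 rfl)

end Pool.Agent.AT
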