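import Pool.Agent.Work.MP_1b6412_co.Cone

/-! The main construction for MP_1b6412_co: the greedy set of nodes, its thinning, and the branch
sets of a graph of type G_{omega_1}(S). -/

set_option autoImplicit false
open Set Cardinal Ordinal
namespace Pool.Agent.AT
universe u v w

/-- closure point -/
def Cl {Ω : Type v} [LinearOrder Ω] (F : Ω → Ω) (s : Ω) : Prop := ∀ a < s, F a < s

theorem exists_above {Ω : Type v} [LinearOrder Ω] [WellFoundedLT Ω] (hΩ : OmLike Ω) (F : Ω → Ω) :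
    ∃ F' : Ω → Ω, (∀ a, a < F' a) ∧ ∀ a b, b ≤ a → F b < F' a := by
  have key : ∀ a : Ω, ∃ c, a < c ∧ ∀ b ≤ a, F b < c := by
    intro a
    have hc : (insert a (F '' insert a (Iio a))).Countable :=
      ((((hΩ.ctbl a).insert a).image F)).insert a
    obtain ⟨c, hc⟩ := hΩ.bdd _ hc
    refine ⟨c, hc a (mem_insert _ _), ?_⟩
    intro b hb
    apply hc
    right
    refine ⟨b, ?_, rfl⟩
    rcases hb.eq_or_lt with h | h
    · left; exact h
    · right; exact h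
  choose F' h1 h2 using key
  exact ⟨F', h1, fun a b hb => h2 a b hb⟩

theorem exists_cl {Ω : Type v} [LinearOrder Ω] [WellFoundedLT Ω] (hΩ : OmLike Ω) (F : Ω → Ω)
    (a : Ω) : ∃ d, a < d ∧ Cl F d := by
  obtain ⟨F', h1, h2⟩ := exists_above hΩ F
  let c : ℕ → Ω := fun n => F'^[n] a
  have hcs : ∀ n, c (n + 1) = F' (c n) := fun n => Function.iterate_succ_apply' F' n a
  obtain ⟨b0, hb0⟩ := hΩ.bdd (range c) (countable_range c)
  have hne : {b | ∀ n, c n < b}.Nonempty := ⟨b0, fun n => hb0 _ ⟨n, rfl⟩⟩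
  obtain ⟨d, hd, hmin⟩ := WellFounded.has_min (wellFounded_lt : WellFounded (fun x y : Ω => x < y))
    {b | ∀ n, c n < b} hne
  refine ⟨d, hd 0, ?_⟩
  intro b hb
  have : ¬ (∀ n, c n < b) := fun h => hmin b h hb
  push Not at this
  obtain ⟨n, hn⟩ := this
  calc F b < F' (c n) := h2 _ _ hn
    _ = c (n + 1) := (hcs n).symm
    _ < d := hd _

theorem exists_nx {Ω : Type v} [LinearOrder Ω] [WellFoundedLT Ω] (hΩ : OmLike Ω) (F : Ω → Ω) :
    ∃ nx : Ω → Ω, (∀ a, a < nx a) ∧ (∀ a, Cl F (nx a)) ∧ (∀ a d, a < d → Cl F d → nx a ≤ d) := by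
  have key : ∀ a : Ω, ∃ c, a < c ∧ Cl F c ∧ ∀ d, a < d → Cl F d → c ≤ d := by
    intro a
    obtain ⟨b0, hb0, hb1⟩ := exists_cl hΩ F a
    obtain ⟨d, hd, hmin⟩ := WellFounded.has_min
      (wellFounded_lt : WellFounded (fun x y : Ω => x < y)) {b | a < b ∧ Cl F b} ⟨b0, hb0, hb1⟩
    exact ⟨d, hd.1, hd.2, fun e h1 h2 => not_lt.1 (hmin e ⟨h1, h2⟩)⟩
  choose nx h1 h2 h3 using key
  exact ⟨nx, h1, h2, h3⟩

theorem exists_pr {Ω : Type v} [LinearOrder Ω] [WellFoundedLT Ω] (F : Ω → Ω) :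
    ∃ pr : Ω → Ω, (∀ a, pr a ≤ a) ∧ (∀ a, Cl F (pr a)) ∧ (∀ a d, d ≤ a → Cl F d → d ≤ pr a) := by
  have key : ∀ a : Ω, ∃ c, c ≤ a ∧ Cl F c ∧ ∀ d, d ≤ a → Cl F d → d ≤ c := by
    intro a
    obtain ⟨g, hg, hmin⟩ := WellFounded.has_min
      (wellFounded_lt : WellFounded (fun x y : Ω => x < y))
      {g | ∀ d, d ≤ a → Cl F d → d ≤ g} ⟨a, fun d h _ => h⟩
    have hga : g ≤ a := not_lt.1 (fun h => hmin a (fun d h _ => h) h)
    refine ⟨g, hga, ?_, hg⟩
    intro c hc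
    have : ¬ (∀ d, d ≤ a → Cl F d → d ≤ c) := fun h => hmin c h hc
    push Not at this
    obtain ⟨d, hda, hd, hcd⟩ := this
    exact (hd c hcd).trans_le (hg d hda hd)
  choose pr h1 h2 h3 using key
  exact ⟨pr, h1, h2, h3⟩

theorem stat_cl {Ω : Type v} [LinearOrder Ω] [WellFoundedLT Ω] [Nonempty Ω] (hΩ : OmLike Ω)
    (F : Ω → Ω) : Stat {s | Cl F s} := by
  intro F'
  obtain ⟨a⟩ := ‹Nonempty Ω›
  obtain ⟨d, hd, hc⟩ := exists_cl hΩ (fun a => max (F a) (F' a)) a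
  refine ⟨d, ?_, ⟨a, hd⟩, ?_⟩
  · intro b hb
    exact (le_max_left _ _).trans_lt (hc b hb)
  · intro b hb
    exact (le_max_right _ _).trans_lt (hc b hb)

theorem exists_greedy {T : Type u} {Ω : Type v} [LinearOrder Ω] [WellFoundedLT Ω] (h : T → Ω)
    (P : T → Set T → Prop) : ∃ D : Set T, ∀ w, w ∈ D ↔ P w {u ∈ D | h u < h w} := by
  have wf : WellFounded (fun x y : T => h x < h y) := InvImage.wf h wellFounded_lt
  let D : T → Prop := wf.fix (fun w ih => P w {u | ∃ hu : h u < h w, ih u hu})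
  refine ⟨{w | D w}, ?_⟩
  intro w
  have e : D w = P w {u | ∃ _ : h u < h w, D u} := wf.fix_eq _ w
  have e2 : {u | ∃ _ : h u < h w, D u} = {u ∈ {w | D w} | h u < h w} := by
    ext u
    constructor
    · rintro ⟨h1, h2⟩
      exact ⟨h2, h1⟩
    · rintro ⟨h1, h2⟩
      exact ⟨h2, h1⟩
  rw [e2] at e
  exact iff_of_eq e


theorem Al.mono {T : Type u} [PartialOrder T] {G : SimpleGraph T} {x v w : T} (hx : Al G x w)
    (h1 : x < v) (h2 : v ≤ w) : Al G x v := by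
  obtain ⟨_, y, hy, ha⟩ := hx
  exact ⟨h1, y, h2.trans hy, ha⟩

theorem TreeData.mono_le {T : Type u} [PartialOrder T] {Ω : Type v} [LinearOrder Ω] {h : T → Ω}
    {G : SimpleGraph T} (hT : TreeData h G) {x y : T} (hxy : x ≤ y) : h x ≤ h y := by
  rcases hxy.eq_or_lt with e | e
  · rw [e]
  · exact (hT.mono _ _ e).le

theorem TreeData.lt_of {T : Type u} [PartialOrder T] {Ω : Type v} [LinearOrder Ω] {h : T → Ω}
    {G : SimpleGraph T} (hT : TreeData h G) {x y t : T} (hx : x ≤ t) (hy : y ≤ t)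
    (hxy : h x < h y) : x < y := by
  rcases hT.chain t x y hx hy with e | e
  · rcases e.eq_or_lt with e | e
    · rw [e] at hxy; exact absurd hxy (lt_irrefl _)
    · exact e
  · exact absurd (hT.mono_le e) (not_le.2 hxy)

theorem TreeData.le_of {T : Type u} [PartialOrder T] {Ω : Type v} [LinearOrder Ω] {h : T → Ω}
    {G : SimpleGraph T} (hT : TreeData h G) {x y t : T} (hx : x ≤ t) (hy : y ≤ t)
    (hxy : h x ≤ h y) : x ≤ y := by
  rcases hT.chain t x y hx hy with e | e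
  · exact e
  · rcases e.eq_or_lt with e | e
    · rw [e]
    · exact absurd (hT.mono _ _ e) (not_lt.2 hxy)

theorem TreeData.eq_of {T : Type u} [PartialOrder T] {Ω : Type v} [LinearOrder Ω] {h : T → Ω}
    {G : SimpleGraph T} (hT : TreeData h G) {x y t : T} (hx : x ≤ t) (hy : y ≤ t)
    (hxy : h x = h y) : x = y :=
  le_antisymm (hT.le_of hx hy hxy.le) (hT.le_of hy hx hxy.ge)

theorem exists_F0 {T : Type u} [PartialOrder T] {Ω : Type v} [LinearOrder Ω]
    [WellFoundedLT Ω] (hΩ : OmLike Ω) {h : T → Ω} {G : SimpleGraph T} (hT : TreeData h G)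
    (hK : ∀ x, {z | x ≤ z ∧ {y | y < x ∧ Al G y z}.Infinite}.Countable) :
    ∃ F0 : Ω → Ω, (∀ a, a < F0 a) ∧
      (∀ w x, Al G x w → ∃ y, w ≤ y ∧ G.Adj x y ∧ h y < F0 (h w)) ∧
      (∀ u w, u ≤ w → F0 (h u) ≤ h w → {x | x < u ∧ Al G x w}.Finite) := by
  classical
  -- countability of lower sets
  have hlow : ∀ w : T, {x | x < w}.Countable := fun w =>
    (hT.ctbl (h w)).mono (fun x hx => hT.mono x w hx)
  -- levels up to `a` are countable
  have hlev : ∀ a : Ω, {x | h x ≤ a}.Countable := by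
    intro a
    obtain ⟨b, hb⟩ := hΩ.bdd {a} (countable_singleton a)
    exact (hT.ctbl b).mono (fun x hx => lt_of_le_of_lt hx (hb a rfl))
  -- witnesses
  have hy : ∀ w x, ∃ y, Al G x w → w ≤ y ∧ G.Adj x y := by
    intro w x
    by_cases hx : Al G x w
    · obtain ⟨_, y, hy⟩ := hx
      exact ⟨y, fun _ => hy⟩
    · exact ⟨w, fun h => absurd h hx⟩
  choose y hy using hy
  have hb1 : ∀ w : T, ∃ b, ∀ x, x < w → h (y w x) < b := by
    intro w
    obtain ⟨b, hb⟩ := hΩ.bdd _ ((hlow w).image (fun x => h (y w x)))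
    exact ⟨b, fun x hx => hb _ ⟨x, hx, rfl⟩⟩
  choose b1 hb1 using hb1
  have hb2 : ∀ u : T, ∃ b, ∀ z, u ≤ z → {y | y < u ∧ Al G y z}.Infinite → h z < b := by
    intro u
    obtain ⟨b, hb⟩ := hΩ.bdd _ ((hK u).image h)
    exact ⟨b, fun z h1 h2 => hb _ ⟨z, ⟨h1, h2⟩, rfl⟩⟩
  choose b2 hb2 using hb2
  have key : ∀ a : Ω, ∃ c, a < c ∧ (∀ w, h w ≤ a → b1 w < c) ∧ (∀ u, h u ≤ a → b2 u < c) := by
    intro a
    have hc : (insert a ((b1 '' {x | h x ≤ a}) ∪ (b2 '' {x | h x ≤ a}))).Countable :=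
      (((hlev a).image b1).union ((hlev a).image b2)).insert a
    obtain ⟨c, hc⟩ := hΩ.bdd _ hc
    refine ⟨c, hc a (mem_insert _ _), ?_, ?_⟩
    · intro w hw
      exact hc _ (Or.inr (Or.inl ⟨w, hw, rfl⟩))
    · intro w hw
      exact hc _ (Or.inr (Or.inr ⟨w, hw, rfl⟩))
  choose F0 h1 h2 h3 using key
  refine ⟨F0, h1, ?_, ?_⟩
  · intro w x hx
    exact ⟨y w x, (hy w x hx).1, (hy w x hx).2, (hb1 w x hx.1).trans (h2 (h w) w le_rfl)⟩
  · intro u w huw hF
    by_contra hinf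
    have h4 := hb2 u w huw hinf
    have h5 := h3 (h u) u le_rfl
    exact absurd ((h4.trans h5).trans_le hF) (lt_irrefl _)

/-- the two cases of the main construction share this part -/
theorem frame {T : Type u} [PartialOrder T] {Ω : Type v} [LinearOrder Ω]
    [WellFoundedLT Ω] {h : T → Ω} {G : SimpleGraph T} (hT : TreeData h G)
    (F0 : Ω → Ω) (hF : ∀ w x, Al G x w → ∃ y, w ≤ y ∧ G.Adj x y ∧ h y < F0 (h w))
    (D : Set T) (β β' : Ω → Ω) (S : Set Ω) (τ : Ω → T) (hS : Stat S)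
    (hβ : ∀ d ∈ D, h d < β (h d) ∧ F0 (h d) ≤ β (h d))
    (hβ' : ∀ s ∈ S, s < β' s ∧ F0 s ≤ β' s) (hτ : ∀ s ∈ S, h (τ s) = s)
    (hDD : ∀ d ∈ D, ∀ e ∈ D, h d < h e → β (h d) ≤ h e)
    (hDS : ∀ d ∈ D, ∀ s ∈ S, h d < s → β (h d) ≤ s)
    (hSD : ∀ d ∈ D, ∀ s ∈ S, s < h d → β' s ≤ h d)
    (hSD' : ∀ d ∈ D, ∀ s ∈ S, d ≠ τ s)
    (hSS : ∀ s ∈ S, ∀ s' ∈ S, s < s' → β' s ≤ s')
    (hfin : ∀ e ∈ D, {d ∈ D | d < e ∧ ∃ x ∈ Cone h d (β (h d)), Al G x e}.Finite)
    (hinf : ∀ s ∈ S, {d ∈ D | d < τ s ∧ ∃ x ∈ Cone h d (β (h d)), Al G x (τ s)}.Infinite)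
    (hcof : ∀ s ∈ S, ∀ b < s, ∃ d ∈ D, b ≤ h d ∧ d < τ s ∧
      ∃ x ∈ Cone h d (β (h d)), Al G x (τ s)) :
    ∃ (D : Set T) (V : T → Set T) (S : Set Ω) (t : Ω → Set T) (R : T → T → Prop) (N : Ω → Set T),
      Stat S ∧
      (∀ d ∈ D, (G.induce (V d)).Connected) ∧ (∀ s ∈ S, (G.induce (t s)).Connected) ∧
      (∀ d ∈ D, ∀ e ∈ D, d ≠ e → Disjoint (V d) (V e)) ∧
      (∀ d ∈ D, ∀ s ∈ S, Disjoint (V d) (t s)) ∧
      (∀ s ∈ S, ∀ s' ∈ S, s ≠ s' → Disjoint (t s) (t s')) ∧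
      (∀ d ∈ D, ∀ e ∈ D, R d e → h d < h e ∧ ∃ a ∈ V d, ∃ b ∈ V e, G.Adj a b) ∧
      (∀ e ∈ D, {d ∈ D | R d e}.Finite) ∧
      (∀ d ∈ D, ∀ e ∈ D, ∀ c ∈ D, R d c → R e c → h d < h e → R d e) ∧
      (∀ d ∈ D, ∀ e ∈ D, ∀ c ∈ D, R d c → R e c → h d = h e → d = e) ∧
      (∀ s ∈ S, N s ⊆ D ∧ (N s).Infinite ∧
        (∀ d ∈ N s, h d < s ∧ ∃ a ∈ t s, ∃ b ∈ V d, G.Adj a b) ∧
        (∀ b < s, ∃ d ∈ N s, b ≤ h d) ∧
        (∀ d ∈ N s, ∀ e ∈ N s, h d < h e → R d e) ∧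
        (∀ d ∈ N s, ∀ e ∈ N s, h d = h e → d = e)) := by
  -- transitivity-like property
  have TR : ∀ d ∈ D, ∀ e ∈ D, ∀ c, (d < c ∧ ∃ x ∈ Cone h d (β (h d)), Al G x c) → e < c →
      h d < h e → (d < e ∧ ∃ x ∈ Cone h d (β (h d)), Al G x e) := by
    rintro d hd e he c ⟨hdc, x, hx, hxc⟩ hec hde
    refine ⟨hT.lt_of hdc.le hec.le hde, x, hx, ?_⟩
    refine hxc.mono ?_ hec.le
    exact hT.lt_of hxc.1.le hec.le (hx.2.trans_le (hDD d hd e he hde))
  -- disjointness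
  have dis : ∀ (a b : T) (α γ : Ω), (h a < h b → α ≤ h b) → (h b < h a → γ ≤ h a) → a ≠ b →
      Disjoint (Cone h a α) (Cone h b γ) := by
    intro a b α γ h1 h2 hab
    rw [Set.disjoint_left]
    rintro y ⟨hay, hya⟩ ⟨hby, hyb⟩
    rcases lt_trichotomy (h a) (h b) with e | e | e
    · exact absurd (hya.trans_le ((h1 e).trans (hT.mono_le hby))) (lt_irrefl _)
    · exact hab (hT.eq_of hay hby e)
    · exact absurd (hyb.trans_le ((h2 e).trans (hT.mono_le hay))) (lt_irrefl _)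
  refine ⟨D, fun d => Cone h d (β (h d)), S, fun s => Cone h (τ s) (β' s),
    fun d e => d < e ∧ ∃ x ∈ Cone h d (β (h d)), Al G x e,
    fun s => {d ∈ D | d < τ s ∧ ∃ x ∈ Cone h d (β (h d)), Al G x (τ s)}, hS, ?_, ?_, ?_, ?_, ?_,
    ?_, hfin, ?_, ?_, ?_⟩
  · intro d hd
    exact cone_connected hT d _ (hβ d hd).1
  · intro s hs
    exact cone_connected hT _ _ (by rw [hτ s hs]; exact (hβ' s hs).1)
  · intro d hd e he hde
    exact dis d e _ _ (hDD d hd e he) (hDD e he d hd) hde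
  · intro d hd s hs
    refine dis d (τ s) _ _ ?_ ?_ (hSD' d hd s hs)
    · rw [hτ s hs]; exact hDS d hd s hs
    · rw [hτ s hs]; exact hSD d hd s hs
  · intro s hs s' hs' hss
    refine dis (τ s) (τ s') _ _ ?_ ?_ ?_
    · rw [hτ s hs, hτ s' hs']; exact hSS s hs s' hs'
    · rw [hτ s hs, hτ s' hs']; exact hSS s' hs' s hs
    · intro e
      apply hss
      rw [← hτ s hs, ← hτ s' hs', e]
  · rintro d hd e he ⟨hde, x, hx, hxe⟩
    refine ⟨hT.mono d e hde, x, hx, ?_⟩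
    obtain ⟨y, hy1, hy2, hy3⟩ := hF e x hxe
    exact ⟨y, ⟨hy1, hy3.trans_le (hβ e he).2⟩, hy2⟩
  · rintro d hd e he c hc hdc ⟨hec, _⟩ hde
    exact TR d hd e he c hdc hec hde
  · rintro d hd e he c hc ⟨hdc, _⟩ ⟨hec, _⟩ hde
    exact hT.eq_of hdc.le hec.le hde
  · intro s hs
    refine ⟨fun d hd => hd.1, hinf s hs, ?_, ?_, ?_, ?_⟩
    · rintro d ⟨hd, hds, x, hx, hxs⟩
      refine ⟨by rw [← hτ s hs]; exact hT.mono _ _ hds, ?_⟩
      obtain ⟨y, hy1, hy2, hy3⟩ := hF (τ s) x hxs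
      rw [hτ s hs] at hy3
      exact ⟨y, ⟨hy1, hy3.trans_le (hβ' s hs).2⟩, x, hx, hy2.symm⟩
    · intro b hb
      obtain ⟨d, hd, hbd, h1⟩ := hcof s hs b hb
      exact ⟨d, ⟨hd, h1⟩, hbd⟩
    · rintro d ⟨hd, hds⟩ e ⟨he, hes⟩ hde
      exact TR d hd e he _ hds hes.1 hde
    · rintro d ⟨hd, hds⟩ e ⟨he, hes⟩ hde
      exact hT.eq_of hds.1.le hes.1.le hde

theorem core {T : Type u} [PartialOrder T] {Ω : Type v} [LinearOrder Ω]
    [WellFoundedLT Ω] (hΩ : OmLike Ω) {h : T → Ω} {G : SimpleGraph T} (hT : TreeData h G)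
    (hK : ∀ x, {z | x ≤ z ∧ {y | y < x ∧ Al G y z}.Infinite}.Countable) :
    ∃ (D : Set T) (V : T → Set T) (S : Set Ω) (t : Ω → Set T) (R : T → T → Prop) (N : Ω → Set T),
      Stat S ∧
      (∀ d ∈ D, (G.induce (V d)).Connected) ∧ (∀ s ∈ S, (G.induce (t s)).Connected) ∧
      (∀ d ∈ D, ∀ e ∈ D, d ≠ e → Disjoint (V d) (V e)) ∧
      (∀ d ∈ D, ∀ s ∈ S, Disjoint (V d) (t s)) ∧
      (∀ s ∈ S, ∀ s' ∈ S, s ≠ s' → Disjoint (t s) (t s')) ∧
      (∀ d ∈ D, ∀ e ∈ D, R d e → h d < h e ∧ ∃ a ∈ V d, ∃ b ∈ V e, G.Adj a b) ∧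
      (∀ e ∈ D, {d ∈ D | R d e}.Finite) ∧
      (∀ d ∈ D, ∀ e ∈ D, ∀ c ∈ D, R d c → R e c → h d < h e → R d e) ∧
      (∀ d ∈ D, ∀ e ∈ D, ∀ c ∈ D, R d c → R e c → h d = h e → d = e) ∧
      (∀ s ∈ S, N s ⊆ D ∧ (N s).Infinite ∧
        (∀ d ∈ N s, h d < s ∧ ∃ a ∈ t s, ∃ b ∈ V d, G.Adj a b) ∧
        (∀ b < s, ∃ d ∈ N s, b ≤ h d) ∧
        (∀ d ∈ N s, ∀ e ∈ N s, h d < h e → R d e) ∧
        (∀ d ∈ N s, ∀ e ∈ N s, h d = h e → d = e)) := by
  classical
  obtain ⟨F0, hF1, hF2, hF3⟩ := exists_F0 hΩ hT hK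
  obtain ⟨nx, nx1, nx2, nx3⟩ := exists_nx hΩ F0
  have hF0nx : ∀ a, F0 a < nx a := fun a => nx2 a a (nx1 a)
  -- greedy set
  obtain ⟨D, hD⟩ := exists_greedy h
    (fun w X => Cl F0 (h w) ∧ {u ∈ X | u < w ∧ ∃ x ∈ Cone h u (nx (h u)), Al G x w}.Finite)
  have hD1 : ∀ w, w ∈ D ↔ Cl F0 (h w) ∧
      {u ∈ D | u < w ∧ ∃ x ∈ Cone h u (nx (h u)), Al G x w}.Finite := by
    intro w
    rw [hD w]
    have : {u ∈ {u ∈ D | h u < h w} | u < w ∧ ∃ x ∈ Cone h u (nx (h u)), Al G x w} =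
        {u ∈ D | u < w ∧ ∃ x ∈ Cone h u (nx (h u)), Al G x w} := by
      ext u
      constructor
      · rintro ⟨⟨h1, _⟩, h3⟩
        exact ⟨h1, h3⟩
      · rintro ⟨h1, h3⟩
        exact ⟨⟨h1, hT.mono _ _ h3.1⟩, h3⟩
    rw [this]
  have hDC : ∀ w ∈ D, Cl F0 (h w) := fun w hw => ((hD1 w).1 hw).1
  -- disjointness of the pieces with respect to `nx`
  -- finiteness below
  have fin1 : ∀ v w, v < w → Cl F0 (h v) → Cl F0 (h w) →
      {u ∈ D | (u < w ∧ ∃ x ∈ Cone h u (nx (h u)), Al G x w) ∧ h u < h v}.Finite := by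
    intro v w hvw hv hw
    have hfin := hF3 v w hvw.le (hw _ (hT.mono _ _ hvw)).le
    -- choose witnesses
    have hx : ∀ u ∈ {u ∈ D | (u < w ∧ ∃ x ∈ Cone h u (nx (h u)), Al G x w) ∧ h u < h v},
        ∃ x, x ∈ Cone h u (nx (h u)) ∧ x ∈ {x | x < v ∧ Al G x w} := by
      rintro u ⟨hu, ⟨huw, x, hx, hxw⟩, huv⟩
      refine ⟨x, hx, ?_, hxw⟩
      exact hT.lt_of hxw.1.le hvw.le (hx.2.trans_le (nx3 _ _ huv hv))
    choose! x hx1 hx2 using hx
    refine Set.Finite.of_injOn (f := x) (t := {x | x < v ∧ Al G x w}) hx2 ?_ hfin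
    intro u hu u' hu' e
    have a1 := hx1 u hu
    have a2 := hx1 u' hu'
    rw [← e] at a2
    rcases lt_trichotomy (h u) (h u') with c | c | c
    · exact absurd (a1.2.trans_le ((nx3 _ _ c (hDC _ hu'.1)).trans (hT.mono_le a2.1)))
        (lt_irrefl _)
    · exact hT.eq_of a1.1 a2.1 c
    · exact absurd (a2.2.trans_le ((nx3 _ _ c (hDC _ hu.1)).trans (hT.mono_le a1.1)))
        (lt_irrefl _)
  by_cases hcase : Stat {s | ∃ w, h w = s ∧ Cl F0 s ∧ w ∉ D}
  · -- Case 1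
    have hτ : ∀ s ∈ {s | ∃ w, h w = s ∧ Cl F0 s ∧ w ∉ D}, ∃ w, h w = s ∧ Cl F0 s ∧ w ∉ D :=
      fun s hs => hs
    have : Nonempty T := by
      obtain ⟨s, ⟨w, _⟩, _⟩ := hcase (fun a => a)
      exact ⟨w⟩
    choose! τ τ1 τ2 τ3 using hτ
    have inf : ∀ s ∈ {s | ∃ w, h w = s ∧ Cl F0 s ∧ w ∉ D},
        {d ∈ D | d < τ s ∧ ∃ x ∈ Cone h d (nx (h d)), Al G x (τ s)}.Infinite := by
      intro s hs hf
      apply τ3 s hs
      rw [hD1, τ1 s hs]
      exact ⟨τ2 s hs, hf⟩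
    refine frame hT F0 hF2 D nx nx _ τ hcase ?_ ?_ τ1 ?_ ?_ ?_ ?_ ?_ ?_ inf ?_
    · intro d hd
      exact ⟨nx1 _, (hF0nx _).le⟩
    · intro s hs
      exact ⟨nx1 _, (hF0nx _).le⟩
    · intro d hd e he hde
      exact nx3 _ _ hde (hDC e he)
    · intro d hd s hs hds
      exact nx3 _ _ hds (τ2 s hs)
    · intro d hd s hs hds
      exact nx3 _ _ hds (hDC d hd)
    · rintro d hd s hs rfl
      exact τ3 s hs hd
    · intro s hs s' hs' hss
      exact nx3 _ _ hss (τ2 s' hs')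
    · intro e he
      exact ((hD1 e).1 he).2
    · -- cofinality
      intro s hs b hb
      -- the least `η` with infinitely many below
      by_contra hcon
      push Not at hcon
      -- the set of `b` such that infinitely many are below `b`
      obtain ⟨η, hη, hmin⟩ := WellFounded.has_min
        (wellFounded_lt : WellFounded (fun x y : Ω => x < y))
        {η | {d ∈ D | (d < τ s ∧ ∃ x ∈ Cone h d (nx (h d)), Al G x (τ s)) ∧ h d < η}.Infinite}
        ⟨b, by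
          have : {d ∈ D | (d < τ s ∧ ∃ x ∈ Cone h d (nx (h d)), Al G x (τ s)) ∧ h d < b} =
            {d ∈ D | d < τ s ∧ ∃ x ∈ Cone h d (nx (h d)), Al G x (τ s)} := by
            ext d
            constructor
            · rintro ⟨h1, h2, _⟩
              exact ⟨h1, h2⟩
            · rintro ⟨h1, h2⟩
              refine ⟨h1, h2, ?_⟩
              by_contra hb'
              obtain ⟨h3, x, h4, h5⟩ := h2
              exact hcon d h1 (not_lt.1 hb') h3 x h4 h5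
          rw [Set.mem_ofPred_eq, this]
          exact inf s hs⟩
      have hηs : η < s := by
        refine lt_of_le_of_lt (not_lt.1 (fun hlt => hmin b ?_ hlt)) hb
        have : {d ∈ D | (d < τ s ∧ ∃ x ∈ Cone h d (nx (h d)), Al G x (τ s)) ∧ h d < b} =
            {d ∈ D | d < τ s ∧ ∃ x ∈ Cone h d (nx (h d)), Al G x (τ s)} := by
            ext d
            constructor
            · rintro ⟨h1, h2, _⟩
              exact ⟨h1, h2⟩
            · rintro ⟨h1, h2⟩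
              refine ⟨h1, h2, ?_⟩
              by_contra hb'
              obtain ⟨h3, x, h4, h5⟩ := h2
              exact hcon d h1 (not_lt.1 hb') h3 x h4 h5
        rw [Set.mem_ofPred_eq, this]
        exact inf s hs
      have hηC : Cl F0 η := by
        intro a ha
        have hfa : {d ∈ D | (d < τ s ∧ ∃ x ∈ Cone h d (nx (h d)), Al G x (τ s)) ∧
            h d < a}.Finite := by
          by_contra hc
          exact hmin a hc ha
        have hsub : {d ∈ D | (d < τ s ∧ ∃ x ∈ Cone h d (nx (h d)), Al G x (τ s)) ∧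
            h d = a}.Subsingleton := by
          rintro d ⟨_, h1, h2⟩ e ⟨_, h3, h4⟩
          exact hT.eq_of h1.1.le h3.1.le (h2.trans h4.symm)
        obtain ⟨d, hd, hnd⟩ := (Set.Infinite.sdiff hη (hfa.union hsub.finite)).nonempty
        have hda : a < h d := by
          rcases lt_trichotomy a (h d) with c | c | c
          · exact c
          · exact absurd (Or.inr ⟨hd.1, hd.2.1, c.symm⟩) hnd
          · exact absurd (Or.inl ⟨hd.1, hd.2.1, c⟩) hnd
        exact (hDC d hd.1 a hda).trans hd.2.2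
      obtain ⟨v, hv1, hv2⟩ := hT.restr (τ s) η (by rw [τ1 s hs]; exact hηs.le)
      have hvs : v < τ s := by
        refine lt_of_le_of_ne hv1 ?_
        intro e
        rw [e, τ1 s hs] at hv2
        exact absurd hηs (by rw [hv2]; exact lt_irrefl _)
      have := fin1 v (τ s) hvs (by rw [hv2]; exact hηC) (by rw [τ1 s hs]; exact τ2 s hs)
      rw [hv2] at this
      exact hη this
  · -- Case 2
    have hcase' : ∃ F1 : Ω → Ω, ∀ w, Cl F0 (h w) → (∃ a, a < h w) → Cl F1 (h w) → w ∈ D := by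
      unfold Stat at hcase
      push Not at hcase
      obtain ⟨F1, hF1⟩ := hcase
      refine ⟨F1, ?_⟩
      intro w hw hne hcl
      by_contra hwD
      obtain ⟨a, ha, hle⟩ := hF1 (h w) ⟨w, rfl, hw, hwD⟩ hne
      exact absurd (hcl a ha) (not_lt.2 hle)
    obtain ⟨F1, hF1'⟩ := hcase'
    -- the thinner club
    obtain ⟨nz, nz1, nz2, nz3⟩ := exists_nx hΩ (fun a => max (F1 a) (nx a))
    obtain ⟨pr, pr1, pr2, pr3⟩ := exists_pr F0
    obtain ⟨pz, pz1, pz2, pz3⟩ := exists_pr (fun a => max (F1 a) (nx a))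
    have zc : ∀ s, Cl (fun a => max (F1 a) (nx a)) s → Cl F0 s := fun s hs a ha =>
      (hF0nx a).trans ((le_max_right _ _).trans_lt (hs a ha))
    have zn : ∀ s, Cl (fun a => max (F1 a) (nx a)) s → ∀ a < s, nx a < s := fun s hs a ha =>
      (le_max_right _ _).trans_lt (hs a ha)
    have z1 : ∀ s, Cl (fun a => max (F1 a) (nx a)) s → Cl F1 s := fun s hs a ha =>
      (le_max_left _ _).trans_lt (hs a ha)
    -- next point of the thin club after `nx g`
    have nxmono : ∀ a b, a ≤ b → nx a ≤ nx b := fun a b hab =>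
      nx3 a _ (hab.trans_lt (nx1 b)) (nx2 b)
    have nznx : ∀ g, nz (nx g) = nz g := by
      intro g
      apply le_antisymm
      · exact nz3 _ _ (zn _ (nz2 g) _ (nz1 g)) (nz2 g)
      · exact nz3 _ _ ((nx1 g).trans (nz1 _)) (nz2 _)
    let D' : Set T := {c | ∃ g, Cl (fun a => max (F1 a) (nx a)) g ∧ h c = nx g}
    let S : Set Ω := {s | Cl nz s ∧ (∃ a, a < s)}
    have hneΩ : Nonempty Ω := by
      obtain ⟨b, hb⟩ := hΩ.bdd ∅ countable_empty
      exact ⟨b⟩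
    have hS : Stat S := by
      intro F
      obtain ⟨s, hs, hs1, hs2⟩ := stat_cl hΩ nz F
      exact ⟨s, ⟨hs, hs1⟩, hs1, hs2⟩
    choose τ hτ using hT.levels
    -- elements of `S` are in the thin club
    have hSz : ∀ s ∈ S, Cl (fun a => max (F1 a) (nx a)) s := by
      intro s hs a ha
      have : nz a < s := hs.1 a ha
      exact (nz2 a a (nz1 a)).trans this
    -- key order facts
    have kDD : ∀ d ∈ D', ∀ e ∈ D', h d < h e → ∃ g, Cl (fun a => max (F1 a) (nx a)) g ∧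
        nz (h d) ≤ g ∧ F0 g ≤ h e ∧ g < h e := by
      rintro d ⟨g, hg, hd⟩ e ⟨g', hg', he⟩ hde
      have hgg : g < g' := by
        by_contra hc
        have := nxmono g' g (not_lt.1 hc)
        rw [← hd, ← he] at this
        exact absurd hde (not_lt.2 this)
      refine ⟨g', hg', ?_, ?_, ?_⟩
      · rw [hd, nznx]
        exact nz3 _ _ hgg hg'
      · rw [he]; exact (hF0nx g').le
      · rw [he]; exact nx1 g'
    have hcof : ∀ s ∈ S, ∀ b < s, ∃ d ∈ D', b ≤ h d ∧ d < τ s ∧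
        ∃ x ∈ Cone h d (nz (h d)), Al G x (τ s) := by
      intro s hs b hb
      have hτD : τ s ∈ D := hF1' (τ s) (by rw [hτ]; exact zc s (hSz s hs))
        (by rw [hτ]; exact hs.2) (by rw [hτ]; exact z1 s (hSz s hs))
      have hfin := ((hD1 (τ s)).1 hτD).2
      obtain ⟨m, hm, hmax⟩ := Set.exists_max_image _ (fun a : Ω => a) ((hfin.image h).insert b)
        ⟨b, mem_insert _ _⟩
      have hms : m < s := by
        rcases hm with hm | ⟨d, hd, hm⟩
        · rw [hm]; exact hb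
        · rw [← hm, ← hτ s]
          exact hT.mono _ _ hd.2.1
      have hb's : nz m < s := hs.1 m hms
      obtain ⟨v, hv1, hv2⟩ := hT.restr (τ s) (nz m) (by rw [hτ]; exact hb's.le)
      have hvs : v < τ s := by
        refine lt_of_le_of_ne hv1 ?_
        intro e
        rw [e, hτ] at hv2
        exact absurd hb's (by rw [hv2]; exact lt_irrefl _)
      obtain ⟨x, hvx, hxs, hadj⟩ := hT.cofinal (τ s) v hvs
      obtain ⟨w, hux, huh⟩ := hT.restr x (pr (h x)) (pr1 _)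
      have hwC : Cl F0 (h w) := by rw [huh]; exact pr2 _
      have hxAl : Al G x (τ s) := ⟨hxs, τ s, le_rfl, hadj⟩
      have hnzw : nz m ≤ h w := by
        rw [huh]
        refine pr3 _ _ ?_ (zc _ (nz2 _))
        rw [← hv2]
        exact hT.mono_le hvx
      have hxw : h x < nx (h w) := by
        by_contra hc
        have := pr3 _ _ (not_lt.1 hc) (nx2 _)
        rw [← huh] at this
        exact absurd (nx1 _) (not_lt.2 this)
      have hwz : ¬ Cl (fun a => max (F1 a) (nx a)) (h w) := by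
        intro hc
        have hwD : w ∈ D := hF1' w hwC ⟨m, (nz1 m).trans_le hnzw⟩ (z1 _ hc)
        have := hmax (h w) (Or.inr ⟨w, ⟨hwD, hux.trans_lt hxs, x, ⟨hux, hxw⟩, hxAl⟩, rfl⟩)
        exact absurd ((nz1 m).trans_le (hnzw.trans this)) (lt_irrefl _)
      have hγ : pz (h w) < h w := by
        refine lt_of_le_of_ne (pz1 _) ?_
        intro e
        apply hwz
        have := pz2 (h w)
        rwa [e] at this
      obtain ⟨c, hcw, hch⟩ := hT.restr w (nx (pz (h w))) (nx3 _ _ hγ hwC)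
      have hwnz : h w < nz (pz (h w)) := by
        by_contra hc
        exact absurd (nz1 _) (not_lt.2 (pz3 _ _ (not_lt.1 hc) (nz2 _)))
      refine ⟨c, ⟨pz (h w), pz2 _, hch⟩, ?_, (hcw.trans hux).trans_lt hxs, x,
        ⟨hcw.trans hux, ?_⟩, hxAl⟩
      · rw [hch]
        calc b ≤ m := hmax b (mem_insert _ _)
          _ ≤ nz m := (nz1 m).le
          _ ≤ pz (h w) := pz3 _ _ hnzw (nz2 _)
          _ ≤ nx (pz (h w)) := (nx1 _).le
      · rw [hch, nznx]
        exact hxw.trans_le (nx3 _ _ hwnz (zc _ (nz2 _)))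
    have hinf : ∀ s ∈ S, {d ∈ D' | d < τ s ∧ ∃ x ∈ Cone h d (nz (h d)), Al G x (τ s)}.Infinite := by
      intro s hs hf
      obtain ⟨b0, hb0⟩ := hs.2
      obtain ⟨d0, hd0, _, hd0'⟩ := hcof s hs b0 hb0
      obtain ⟨d, hd, hmax⟩ := Set.exists_max_image _ h hf ⟨d0, hd0, hd0'⟩
      have hds : h d < s := by
        have := hT.mono _ _ hd.2.1
        rwa [hτ] at this
      obtain ⟨e, he, h1, h2⟩ := hcof s hs (nz (h d)) (hs.1 _ hds)
      exact absurd ((nz1 (h d)).trans_le (h1.trans (hmax e ⟨he, h2⟩))) (lt_irrefl _)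
    refine frame hT F0 hF2 D' nz nx S τ hS ?_ ?_ (fun s _ => hτ s) ?_ ?_ ?_ ?_ ?_ ?_ hinf hcof
    · intro d hd
      exact ⟨nz1 _, (zc _ (nz2 _) _ (nz1 _)).le⟩
    · intro s hs
      exact ⟨nx1 _, (hF0nx _).le⟩
    · intro d hd e he hde
      obtain ⟨g, _, h1, _, h2⟩ := kDD d hd e he hde
      exact h1.trans h2.le
    · intro d hd s hs hds
      exact nz3 _ _ hds (hSz s hs)
    · rintro d ⟨g, hg, hd⟩ s hs hds
      rw [hd] at hds ⊢
      have : s ≤ g := by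
        by_contra hc
        exact absurd (zn s (hSz s hs) g (not_le.1 hc)) (not_lt.2 hds.le)
      exact nxmono _ _ this
    · rintro d ⟨g, hg, hd⟩ s hs rfl
      rw [hτ] at hd
      rcases lt_or_ge g s with c | c
      · have := zn s (hSz s hs) g c
        rw [← hd] at this
        exact absurd this (lt_irrefl _)
      · have := c.trans_lt (nx1 g)
        rw [← hd] at this
        exact absurd this (lt_irrefl _)
    · intro s hs s' hs' hss
      exact nx3 _ _ hss (zc _ (hSz s' hs'))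
    · -- finiteness
      intro e he
      obtain ⟨g', hg', he'⟩ := he
      obtain ⟨v, hv1, hv2⟩ := hT.restr e g' (by rw [he']; exact (nx1 g').le)
      have hfin := hF3 v e hv1 (by rw [hv2, he']; exact (hF0nx g').le)
      have hx : ∀ u ∈ {d ∈ D' | d < e ∧ ∃ x ∈ Cone h d (nz (h d)), Al G x e},
          ∃ x, x ∈ Cone h u (nz (h u)) ∧ x ∈ {x | x < v ∧ Al G x e} := by
        rintro u ⟨⟨g, hg, hu⟩, hue, x, hx, hxe⟩
        refine ⟨x, hx, ?_, hxe⟩
        have hgg : g < g' := by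
          by_contra hc
          have := nxmono g' g (not_lt.1 hc)
          rw [← hu, ← he'] at this
          exact absurd (hT.mono _ _ hue) (not_lt.2 this)
        refine hT.lt_of hxe.1.le hv1 ?_
        rw [hv2]
        refine hx.2.trans_le ?_
        rw [hu, nznx]
        exact nz3 _ _ hgg hg'
      choose! x hx1 hx2 using hx
      refine Set.Finite.of_injOn (f := x) (t := {x | x < v ∧ Al G x e}) hx2 ?_ hfin
      intro u hu u' hu' e'
      have a1 := hx1 u hu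
      have a2 := hx1 u' hu'
      rw [← e'] at a2
      rcases lt_trichotomy (h u) (h u') with c | c | c
      · obtain ⟨g, _, h1, _, h2⟩ := kDD u hu.1 u' hu'.1 c
        exact absurd (a1.2.trans_le ((h1.trans h2.le).trans (hT.mono_le a2.1))) (lt_irrefl _)
      · exact hT.eq_of a1.1 a2.1 c
      · obtain ⟨g, _, h1, _, h2⟩ := kDD u' hu'.1 u hu.1 c
        exact absurd (a2.2.trans_le ((h1.trans h2.le).trans (hT.mono_le a1.1))) (lt_irrefl _)

end Pool.Agent.AT
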