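import Mathlib

/-! Definitions for MP_1b6412_co: Aronszajn tree graphs, infinite minors,
the graphs of type (aleph_0, aleph_1) and the graphs G_{omega_1}(S). -/

set_option autoImplicit false

open Set Cardinal Ordinal

namespace Pool.Agent.AT

universe u v w

/-- Order tree: a partial order with a least element in which every set of the form
`{x : x ≤ t}` is well-ordered (every nonempty subset of it has a least element). -/
structure IsOrderTree (T : Type u) [PartialOrder T] : Prop where
  least : ∃ r : T, ∀ t : T, r ≤ t
  wo : ∀ (t : T) (s : Set T), s ⊆ Iic t → s.Nonempty → ∃ m ∈ s, ∀ a ∈ s, m ≤ a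

/-- The height of `t` is the ordinal `o`: the set `{x : x < t}` has order type `o`. -/
def HasHeight {T : Type u} [PartialOrder T] (t : T) (o : Ordinal.{u}) : Prop :=
  Nonempty (Iio t ≃o Iio o)

/-- Aronszajn tree: an order tree of size `ℵ₁` all of whose levels and all of whose branches
(maximal chains) are countable. -/
structure IsAronszajnTree (T : Type u) [PartialOrder T] : Prop where
  tree : IsOrderTree T
  size : #T = ℵ₁
  levels : ∀ o : Ordinal.{u}, {t : T | HasHeight t o}.Countable
  branches : ∀ B : Set T, IsMaxChain (fun x y => x ≤ y) B → B.Countable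

/-- `G` is a `T`-graph: edges join comparable points, and for every `t` the neighbours of `t`
below `t` are cofinal in `{x : x < t}`. -/
structure IsTreeGraph {T : Type u} [PartialOrder T] (G : SimpleGraph T) : Prop where
  comparable : ∀ x y : T, G.Adj x y → x ≤ y ∨ y ≤ x
  cofinal : ∀ t x : T, x < t → ∃ y, x ≤ y ∧ y < t ∧ G.Adj y t

/-- `H` is a minor of `G`: disjoint connected (possibly infinite) branch sets, with an edge of
`G` between the branch sets of adjacent vertices of `H`. -/
def IsMinor {W : Type v} {V : Type u} (H : SimpleGraph W) (G : SimpleGraph V) : Prop :=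
  ∃ B : W → Set V, (∀ x, (G.induce (B x)).Connected) ∧
    (∀ x y, x ≠ y → Disjoint (B x) (B y)) ∧
    ∀ x y, H.Adj x y → ∃ a ∈ B x, ∃ b ∈ B y, G.Adj a b

/-- `(ℵ₀, ℵ₁)`-graph: bipartite with sides `A` of size `ℵ₀` and `B` of size `ℵ₁`, every vertex
of `B` having infinite degree. -/
structure IsAlephGraph {A : Type v} {B : Type w} (H : SimpleGraph (A ⊕ B)) : Prop where
  cardA : #A = ℵ₀
  cardB : #B = ℵ₁
  indepA : ∀ a a' : A, ¬ H.Adj (Sum.inl a) (Sum.inl a')
  indepB : ∀ b b' : B, ¬ H.Adj (Sum.inr b) (Sum.inr b')
  degB : ∀ b : B, {a : A | H.Adj (Sum.inl a) (Sum.inr b)}.Infinite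

/-- The countable ordinals. -/
abbrev Om : Type 1 := Iio (ω₁ : Ordinal.{0})

/-- Sequences of countable ordinals of length at most `ω`: finite ones and infinite ones. -/
inductive SeqTree : Type 1
  | fin (l : List Om) : SeqTree
  | inf (f : ℕ → Om) : SeqTree

/-- the entry at place `n`, if there is one -/
noncomputable def SeqTree.entry : SeqTree → ℕ → Option Om
  | .fin l, n => l[n]?
  | .inf f, n => some (f n)

/-- The order by (not necessarily proper) initial segment: `x ≤ y` iff every entry of `x` is the
entry of `y` at the same place. -/
noncomputable instance : PartialOrder SeqTree where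
  le x y := ∀ (n : ℕ) (a : Om), x.entry n = some a → y.entry n = some a
  le_refl x n a h := h
  le_trans x y z h1 h2 n a h := h2 n a (h1 n a h)
  le_antisymm x y h1 h2 := by
    cases x with
    | fin l =>
      cases y with
      | fin m =>
        congr 1
        apply List.ext_getElem?
        intro n
        have a1 := h1 n
        have a2 := h2 n
        simp only [SeqTree.entry] at a1 a2
        cases hl : l[n]? with
        | none =>
          cases hm : m[n]? with
          | none => rfl
          | some b => rw [a2 b hm] at hl; cases hl
        | some a => rw [a1 a hl]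
      | inf g =>
        exfalso
        have := h2 l.length (g l.length) rfl
        simp [SeqTree.entry] at this
    | inf f =>
      cases y with
      | fin m =>
        exfalso
        have := h1 m.length (f m.length) rfl
        simp [SeqTree.entry] at this
      | inf g =>
        congr 1
        funext n
        have := h1 n (f n) rfl
        simp only [SeqTree.entry, Option.some.injEq] at this
        exact this.symm

/-- `f` is a sequence of ordinals below `s` that is cofinal in `s` -/
def IsCofinalIn (f : ℕ → Om) (s : Om) : Prop :=
  (∀ n, f n < s) ∧ ∀ b < s, ∃ n, b ≤ f n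

/-- Vertex set of `G_{ω₁}(S)`: all finite sequences together with the sequences `f s`, `s ∈ S`. -/
def vertexSet (S : Set Om) (f : Om → ℕ → Om) : Set SeqTree :=
  range SeqTree.fin ∪ (fun s => SeqTree.inf (f s)) '' S

end Pool.Agent.AT
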