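import Pool.Agent.Work.MP_1b6412_co.Defs

/-! Abstract framework for MP_1b6412_co: well-orders of type omega_1, stationary sets in terms of
functions, heights, alive points, truncated cones. -/

set_option autoImplicit false

open Set

namespace Pool.Agent.AT

universe u v

/-- the order behaves like `ω₁` -/
structure OmLike (Ω : Type v) [LinearOrder Ω] : Prop where
  ctbl : ∀ a : Ω, (Iio a).Countable
  bdd : ∀ s : Set Ω, s.Countable → ∃ b, ∀ a ∈ s, a < b

/-- stationary, in terms of closure points of functions -/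
def Stat {Ω : Type v} [LinearOrder Ω] (S : Set Ω) : Prop :=
  ∀ F : Ω → Ω, ∃ s ∈ S, (∃ a, a < s) ∧ ∀ a < s, F a < s

/-- `x` is alive at `w`: it lies below `w` and has a neighbour `≥ w` -/
def Al {T : Type u} [PartialOrder T] (G : SimpleGraph T) (x w : T) : Prop :=
  x < w ∧ ∃ y, w ≤ y ∧ G.Adj x y

/-- truncated cone -/
def Cone {T : Type u} [PartialOrder T] {Ω : Type v} [LinearOrder Ω] (h : T → Ω) (u : T) (b : Ω) :
    Set T := {y | u ≤ y ∧ h y < b}

/-- the facts about the tree, the height function and the graph that are used -/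
structure TreeData {T : Type u} [PartialOrder T] {Ω : Type v} [LinearOrder Ω] (h : T → Ω)
    (G : SimpleGraph T) : Prop where
  chain : ∀ t a b : T, a ≤ t → b ≤ t → a ≤ b ∨ b ≤ a
  mono : ∀ x y : T, x < y → h x < h y
  restr : ∀ (y : T) (a : Ω), a ≤ h y → ∃ x ≤ y, h x = a
  ctbl : ∀ a : Ω, {x | h x < a}.Countable
  levels : ∀ a : Ω, ∃ x, h x = a
  comparable : ∀ x y : T, G.Adj x y → x ≤ y ∨ y ≤ x
  cofinal : ∀ t x : T, x < t → ∃ y, x ≤ y ∧ y < t ∧ G.Adj y t

end Pool.Agent.AT
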