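import Pool.Agent.Work.MP_1b6412_co.Defs2

/-! Item E of MP_1b6412_co: a forest whose branches contain the given infinite chains. -/

set_option autoImplicit false

open Set Cardinal Ordinal

namespace Pool.Agent.AT

universe u v w

theorem exists_forest {D : Type w} {Ω : Type v} [LinearOrder Ω] [WellFoundedLT Ω] (hD : D → Ω)
    (R : D → D → Prop) (hR : ∀ d e, R d e → hD d < hD e) (hfin : ∀ e, {d | R d e}.Finite)
    (htr : ∀ d e c, R d c → R e c → hD d < hD e → R d e)
    (hinj : ∀ d e c, R d c → R e c → hD d = hD e → d = e) :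
    ∃ (p : D → D) (dep : D → ℕ), (∀ d, dep d ≠ 0 → R (p d) d ∧ dep d = dep (p d) + 1) ∧
      ∀ N : Set D, N.Infinite → (∀ d ∈ N, ∀ e ∈ N, hD d < hD e → R d e) →
        (∀ d ∈ N, ∀ e ∈ N, hD d = hD e → d = e) →
        ∃ b : ℕ → D, (∀ n, dep (b n) = n) ∧ (∀ n, p (b (n + 1)) = b n) ∧
          (∀ d ∈ N, ∃ n, b n = d) := by
  classical
  have hpex : ∀ e : D, ∃ q : D, (∃ d, R d e) → (R q e ∧ ∀ d, R d e → hD d ≤ hD q) := by
    intro e
    by_cases h : ∃ d, R d e
    · obtain ⟨d0, hd0⟩ := h
      obtain ⟨q, hq, hmax⟩ := Set.exists_max_image {d | R d e} hD (hfin e) ⟨d0, hd0⟩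
      exact ⟨q, fun _ => ⟨hq, hmax⟩⟩
    · exact ⟨e, fun h' => absurd h' h⟩
  choose p hp using hpex
  have wf : WellFounded (fun a b : D => hD a < hD b) := InvImage.wf hD wellFounded_lt
  let F : (e : D) → ((y : D) → hD y < hD e → ℕ) → ℕ :=
    fun e rec => if h : ∃ d, R d e then rec (p e) (hR _ _ (hp e h).1) + 1 else 0
  let dep : D → ℕ := wf.fix F
  have hdep1 : ∀ e, (∃ d, R d e) → dep e = dep (p e) + 1 := by
    intro e h
    have := wf.fix_eq F e
    change dep e = _ at this
    rw [this]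
    simp only [F, dif_pos h]
    rfl
  have hdep0 : ∀ e, (¬ ∃ d, R d e) → dep e = 0 := by
    intro e h
    have := wf.fix_eq F e
    change dep e = _ at this
    rw [this]
    simp only [F, dif_neg h]
  have hdepne : ∀ e, dep e ≠ 0 → ∃ d, R d e := by
    intro e h
    by_contra hc
    exact h (hdep0 e hc)
  -- the key fact
  have key : ∀ e d, R d e → ∃ k : ℕ, d = p^[k + 1] e ∧ dep e = dep d + (k + 1) := by
    intro e
    refine wf.induction (C := fun e => ∀ d, R d e → ∃ k : ℕ, d = p^[k + 1] e ∧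
      dep e = dep d + (k + 1)) e ?_
    intro e ih d hde
    have hpe := hp e ⟨d, hde⟩
    by_cases hdp : d = p e
    · exact ⟨0, by simpa using hdp, by rw [hdep1 e ⟨d, hde⟩, hdp]⟩
    · have hlt : hD d < hD (p e) := by
        rcases lt_or_eq_of_le (hpe.2 d hde) with h | h
        · exact h
        · exact absurd (hinj d (p e) e hde hpe.1 h) hdp
      have hdpe : R d (p e) := htr d (p e) e hde hpe.1 hlt
      obtain ⟨k, hk1, hk2⟩ := ih (p e) (hR _ _ hpe.1) d hdpe
      refine ⟨k + 1, ?_, ?_⟩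
      · rw [Function.iterate_succ_apply]
        exact hk1
      · rw [hdep1 e ⟨d, hde⟩, hk2]
        omega
  have hiter : ∀ (j : ℕ) (d : D), j ≤ dep d → dep (p^[j] d) = dep d - j := by
    intro j
    induction j with
    | zero => intro d _; simp
    | succ j ih =>
      intro d hj
      have hne : dep d ≠ 0 := by omega
      have h1 := hdep1 d (hdepne d hne)
      rw [Function.iterate_succ_apply, ih (p d) (by omega)]
      omega
  refine ⟨p, dep, fun d hd => ⟨(hp d (hdepne d hd)).1, hdep1 d (hdepne d hd)⟩, ?_⟩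
  intro N hN hcomp hNinj
  have htri : ∀ d ∈ N, ∀ e ∈ N, d = e ∨ R d e ∨ R e d := by
    intro d hd e he
    rcases lt_trichotomy (hD d) (hD e) with h | h | h
    · exact Or.inr (Or.inl (hcomp d hd e he h))
    · exact Or.inl (hNinj d hd e he h)
    · exact Or.inr (Or.inr (hcomp e he d hd h))
  have hdinj : Set.InjOn dep N := by
    intro d hd e he hde
    rcases htri d hd e he with h | h | h
    · exact h
    · obtain ⟨k, _, hk⟩ := key e d h
      omega
    · obtain ⟨k, _, hk⟩ := key d e h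
      omega
  have hunb : ∀ n : ℕ, ∃ d ∈ N, n ≤ dep d := by
    intro n
    have hinf : (dep '' N).Infinite := hN.image hdinj
    obtain ⟨m, ⟨d, hd, rfl⟩, hm⟩ := hinf.exists_gt n
    exact ⟨d, hd, le_of_lt hm⟩
  choose s hsN hs using hunb
  have hRind : ∀ (n : ℕ) (d e : D), R d e → n ≤ dep d →
      p^[dep d - n] d = p^[dep e - n] e := by
    intro n d e hde hn
    obtain ⟨k, hk1, hk2⟩ := key e d hde
    have h1 : dep e - n = (dep d - n) + (k + 1) := by omega
    rw [h1, Function.iterate_add_apply, ← hk1]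
  have hind : ∀ (n : ℕ), ∀ d ∈ N, n ≤ dep d →
      p^[dep (s n) - n] (s n) = p^[dep d - n] d := by
    intro n d hd hn
    rcases htri (s n) (hsN n) d hd with h | h | h
    · rw [← h]
    · exact hRind n _ _ h (hs n)
    · exact (hRind n _ _ h hn).symm
  refine ⟨fun n => p^[dep (s n) - n] (s n), ?_, ?_, ?_⟩
  · intro n
    have h1 := hs n
    change dep (p^[dep (s n) - n] (s n)) = n
    rw [hiter _ _ (Nat.sub_le _ _)]
    omega
  · intro n
    have h1 := hs (n + 1)
    change p (p^[dep (s (n + 1)) - (n + 1)] (s (n + 1))) = p^[dep (s n) - n] (s n)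
    rw [hind n (s (n + 1)) (hsN (n + 1)) (by omega), ← Function.iterate_succ_apply' p]
    congr 1
    omega
  · intro d hd
    refine ⟨dep d, ?_⟩
    change p^[dep (s (dep d)) - dep d] (s (dep d)) = d
    rw [hind (dep d) d hd le_rfl, Nat.sub_self]
    rfl

end Pool.Agent.AT
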