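import Pool.Agent.Work.MP_1b6412_co.Defs2

/-! Item G: from branch sets to the graph `G_{ω₁}(S)` and the minor. -/

set_option autoImplicit false

open Set Cardinal Ordinal

namespace Pool.Agent.AT

universe u v w

theorem gr_fin_le_fin (l m : List Om) : SeqTree.fin l ≤ SeqTree.fin m ↔ l <+: m := by
  constructor
  · intro h
    rw [List.prefix_iff_getElem?]
    intro i hi
    have := h i (l[i]) (by simp [SeqTree.entry])
    simpa [SeqTree.entry] using this
  · intro h n a ha
    simp only [SeqTree.entry] at ha ⊢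
    rw [List.getElem?_eq_some_iff] at ha
    obtain ⟨hn, rfl⟩ := ha
    rw [List.prefix_iff_getElem?] at h
    exact h n hn

theorem gr_fin_le_inf (l : List Om) (g : ℕ → Om) : SeqTree.fin l ≤ SeqTree.inf g ↔
    l = (List.range l.length).map g := by
  constructor
  · intro h
    apply List.ext_getElem
    · simp
    · intro i h1 h2
      have := h i (l[i]) (by simp [SeqTree.entry])
      simp only [SeqTree.entry, Option.some.injEq] at this
      simp [this]
  · intro h n a ha
    simp only [SeqTree.entry] at ha ⊢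
    rw [h] at ha
    rw [List.getElem?_eq_some_iff] at ha
    obtain ⟨hn, rfl⟩ := ha
    simp

theorem gr_not_inf_le_fin (g : ℕ → Om) (m : List Om) : ¬ SeqTree.inf g ≤ SeqTree.fin m := by
  intro h
  have := h m.length (g m.length) rfl
  simp [SeqTree.entry] at this

theorem gr_inf_le_inf (f g : ℕ → Om) (h : SeqTree.inf f ≤ SeqTree.inf g) : f = g := by
  funext n
  have := h n (f n) rfl
  simp only [SeqTree.entry, Option.some.injEq] at this
  exact this.symm

theorem gr_cofinal_inj {f g : ℕ → Om} {s s' : Om} (h : IsCofinalIn f s) (h' : IsCofinalIn g s')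
    (hfg : f = g) : s = s' := by
  subst hfg
  rcases lt_trichotomy s s' with hlt | heq | hlt
  · obtain ⟨n, hn⟩ := h'.2 s hlt
    exact absurd (h.1 n) (not_lt.2 hn)
  · exact heq
  · obtain ⟨n, hn⟩ := h.2 s' hlt
    exact absurd (h'.1 n) (not_lt.2 hn)

theorem graph_minor {T : Type u} (G : SimpleGraph T) (V : List Om → Set T) (t : Om → Set T)
    (S : Set Om) (f : Om → ℕ → Om) (hV : ∀ l, (G.induce (V l)).Connected)
    (ht : ∀ s ∈ S, (G.induce (t s)).Connected)
    (hVV : ∀ l m, l ≠ m → Disjoint (V l) (V m)) (hVt : ∀ l, ∀ s ∈ S, Disjoint (V l) (t s))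
    (htt : ∀ s ∈ S, ∀ s' ∈ S, s ≠ s' → Disjoint (t s) (t s'))
    (hadj : ∀ l a, ∃ x ∈ V l, ∃ y ∈ V (l ++ [a]), G.Adj x y)
    (htop : ∀ s ∈ S, {n : ℕ | ∃ x ∈ t s, ∃ y ∈ V ((List.range n).map (f s)), G.Adj x y}.Infinite)
    (hf : ∀ s ∈ S, IsCofinalIn (f s) s) :
    ∃ K : SimpleGraph SeqTree, IsTreeGraph K ∧ IsMinor (K.induce (vertexSet S f)) G := by
  classical
  set P : SeqTree → SeqTree → Prop := fun x y =>
    (∃ l a, x = SeqTree.fin l ∧ y = SeqTree.fin (l ++ [a])) ∨
    (∃ (g : ℕ → Om) (n : ℕ), x = SeqTree.fin ((List.range n).map g) ∧ y = SeqTree.inf g ∧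
      ∀ s ∈ S, f s = g → ∃ u ∈ t s, ∃ w ∈ V ((List.range n).map (f s)), G.Adj u w) with hP
  have hPle : ∀ x y, P x y → x ≤ y := by
    rintro x y (⟨l, a, rfl, rfl⟩ | ⟨g, n, rfl, rfl, -⟩)
    · rw [gr_fin_le_fin]; exact List.prefix_append _ _
    · rw [gr_fin_le_inf]; simp
  have hadjK : ∀ x y, x < y → P x y → (SimpleGraph.fromRel P).Adj x y := by
    intro x y hxy h
    rw [SimpleGraph.fromRel_adj]
    exact ⟨hxy.ne, Or.inl h⟩
  refine ⟨SimpleGraph.fromRel P, ⟨?_, ?_⟩, ?_⟩
  · intro x y h
    rw [SimpleGraph.fromRel_adj] at h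
    rcases h.2 with h | h
    · exact Or.inl (hPle _ _ h)
    · exact Or.inr (hPle _ _ h)
  · intro z x hx
    cases z with
    | fin l =>
      cases x with
      | inf g => exact absurd hx.le (gr_not_inf_le_fin _ _)
      | fin m =>
        have h1 : m <+: l := (gr_fin_le_fin _ _).1 hx.le
        have h2 : m ≠ l := fun h => hx.ne (by rw [h])
        have hl : l ≠ [] := by
          rintro rfl
          exact h2 (List.prefix_nil.1 h1)
        have hl2 : l.dropLast ++ [l.getLast hl] = l := List.dropLast_append_getLast hl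
        have h3 : m <+: l.dropLast := by
          rw [← hl2] at h1
          rcases List.prefix_concat_iff.1 h1 with h | h
          · exact absurd (h.trans (by simpa using hl2)) h2
          · exact h
        have h4 : P (SeqTree.fin l.dropLast) (SeqTree.fin l) :=
          Or.inl ⟨l.dropLast, l.getLast hl, rfl, by rw [hl2]⟩
        have h5 : SeqTree.fin l.dropLast < SeqTree.fin l := by
          refine lt_of_le_of_ne (hPle _ _ h4) ?_
          intro h
          have h6 : l.dropLast = l := by injection h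
          have h7 : l.dropLast.length = l.length := by rw [h6]
          rw [List.length_dropLast] at h7
          have : 0 < l.length := List.length_pos_iff.2 hl
          omega
        exact ⟨SeqTree.fin l.dropLast, (gr_fin_le_fin _ _).2 h3, h5, hadjK _ _ h5 h4⟩
    | inf g =>
      cases x with
      | inf g' => exact absurd (by rw [gr_inf_le_inf _ _ hx.le]) hx.ne
      | fin m =>
        have h1 := (gr_fin_le_inf _ _).1 hx.le
        obtain ⟨n, hn, hn2⟩ : ∃ n, m.length ≤ n ∧ ∀ s ∈ S, f s = g → ∃ u ∈ t s,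
            ∃ w ∈ V ((List.range n).map (f s)), G.Adj u w := by
          by_cases hs : ∃ s ∈ S, f s = g
          · obtain ⟨s, hs, rfl⟩ := hs
            obtain ⟨n, hn, hmn⟩ := (htop s hs).exists_gt m.length
            refine ⟨n, hmn.le, ?_⟩
            intro s' hs' h'
            have : s' = s := gr_cofinal_inj (hf s' hs') (hf s hs) h'
            subst this
            exact hn
          · exact ⟨m.length, le_rfl, fun s hs' h => absurd ⟨s, hs', h⟩ hs⟩
        have h4 : P (SeqTree.fin ((List.range n).map g)) (SeqTree.inf g) :=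
          Or.inr ⟨g, n, rfl, rfl, hn2⟩
        have h5 : SeqTree.fin ((List.range n).map g) < SeqTree.inf g :=
          lt_of_le_of_ne (hPle _ _ h4) (by intro h; cases h)
        refine ⟨SeqTree.fin ((List.range n).map g), ?_, h5, hadjK _ _ h5 h4⟩
        rw [gr_fin_le_fin, h1]
        refine List.IsPrefix.map g ?_
        rw [List.prefix_iff_getElem?]
        intro i hi
        rw [List.length_range] at hi
        rw [List.getElem?_range (by omega)]
        simp
  · set B : SeqTree → Set T := fun x => {u | (∃ l, x = SeqTree.fin l ∧ u ∈ V l) ∨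
      (∃ s ∈ S, x = SeqTree.inf (f s) ∧ u ∈ t s)} with hB
    have hB1 : ∀ l, B (SeqTree.fin l) = V l := by
      intro l
      ext u
      constructor
      · rintro (⟨m, h, hu⟩ | ⟨s, -, h, -⟩)
        · injection h with h; rwa [h]
        · cases h
      · intro hu; exact Or.inl ⟨l, rfl, hu⟩
    have hB2 : ∀ s ∈ S, B (SeqTree.inf (f s)) = t s := by
      intro s hs
      ext u
      constructor
      · rintro (⟨m, h, hu⟩ | ⟨s', hs', h, hu⟩)
        · cases h
        · injection h with h
          rwa [gr_cofinal_inj (hf s hs) (hf s' hs') h]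
      · intro hu; exact Or.inr ⟨s, hs, rfl, hu⟩
    have hcase : ∀ x ∈ vertexSet S f, (∃ l, x = SeqTree.fin l) ∨ ∃ s ∈ S, x = SeqTree.inf (f s) := by
      rintro x (⟨l, rfl⟩ | ⟨s, hs, rfl⟩)
      · exact Or.inl ⟨l, rfl⟩
      · exact Or.inr ⟨s, hs, rfl⟩
    have hPB : ∀ x ∈ vertexSet S f, ∀ y ∈ vertexSet S f, P x y →
        ∃ a ∈ B x, ∃ b ∈ B y, G.Adj a b := by
      rintro x hx y hy (⟨l, a, rfl, rfl⟩ | ⟨g, n, rfl, rfl, h⟩)
      · rw [hB1, hB1]; exact hadj l a
      · rcases hcase _ hy with ⟨l, h'⟩ | ⟨s, hs, h'⟩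
        · cases h'
        · injection h' with h'
          subst h'
          obtain ⟨a, ha, b, hb, hab⟩ := h s hs rfl
          rw [hB1, hB2 s hs]
          exact ⟨b, hb, a, ha, hab.symm⟩
    refine ⟨fun x => B x.1, ?_, ?_, ?_⟩
    · rintro ⟨x, hx⟩
      rcases hcase x hx with ⟨l, rfl⟩ | ⟨s, hs, rfl⟩
      · show (G.induce (B (SeqTree.fin l))).Connected
        rw [hB1]; exact hV l
      · show (G.induce (B (SeqTree.inf (f s)))).Connected
        rw [hB2 s hs]; exact ht s hs
    · rintro ⟨x, hx⟩ ⟨y, hy⟩ hxy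
      have hne : x ≠ y := fun h => hxy (Subtype.ext h)
      show Disjoint (B x) (B y)
      rcases hcase x hx with ⟨l, rfl⟩ | ⟨s, hs, rfl⟩ <;>
        rcases hcase y hy with ⟨m, rfl⟩ | ⟨s', hs', rfl⟩
      · rw [hB1, hB1]; exact hVV l m (fun h => hne (by rw [h]))
      · rw [hB1, hB2 s' hs']; exact hVt l s' hs'
      · rw [hB1, hB2 s hs]; exact (hVt m s hs).symm
      · rw [hB2 s hs, hB2 s' hs']; exact htt s hs s' hs' (fun h => hne (by rw [h]))
    · rintro ⟨x, hx⟩ ⟨y, hy⟩ hxy
      rw [SimpleGraph.induce_adj, SimpleGraph.fromRel_adj] at hxy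
      rcases hxy.2 with h | h
      · exact hPB x hx y hy h
      · obtain ⟨a, ha, b, hb, hab⟩ := hPB y hy x hx h
        exact ⟨b, hb, a, ha, hab.symm⟩

end Pool.Agent.AT
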