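import Pool.Agent.Work.MP_1b6412_co.Defs2

/-! The height function of an Aronszajn tree into the countable ordinals. -/

set_option autoImplicit false

open Set Cardinal Ordinal

namespace Pool.Agent.AT

universe u v w

theorem height_card_lt {o : Ordinal.{v}} (ho : o < ω₁) : o.card ≤ ℵ₀ := by
  have h1 : o.card < ℵ₁ := by
    rw [← Cardinal.lt_ord, Cardinal.ord_aleph]
    exact ho
  rwa [← Cardinal.succ_aleph0, Order.lt_succ_iff] at h1

theorem height_ctbl_Iio (a : Om) : (Iio a).Countable := by
  have h1 : (Iio a.1).Countable := by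
    rw [← Cardinal.le_aleph0_iff_set_countable, Cardinal.mk_Iio_ordinal]
    have := height_card_lt a.2
    calc Cardinal.lift a.1.card ≤ Cardinal.lift ℵ₀ := Cardinal.lift_le.2 this
      _ = ℵ₀ := Cardinal.lift_aleph0
  have h2 : Iio a = Subtype.val ⁻¹' (Iio a.1) := by
    ext b
    rfl
  rw [h2]
  exact h1.preimage Subtype.val_injective

section
variable {T : Type u} [PartialOrder T] (hT : IsAronszajnTree T)
include hT

theorem height_chain (t a b : T) (ha : a ≤ t) (hb : b ≤ t) : a ≤ b ∨ b ≤ a := by
  obtain ⟨m, hm, hmin⟩ := hT.tree.wo t {a, b} (by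
    intro x hx
    rcases hx with rfl | hx
    · exact ha
    · rw [mem_singleton_iff] at hx
      rw [hx]
      exact hb) ⟨a, Or.inl rfl⟩
  rcases hm with rfl | hm
  · exact Or.inl (hmin b (Or.inr rfl))
  · rw [mem_singleton_iff] at hm
    rw [hm] at hmin
    exact Or.inr (hmin a (Or.inl rfl))

theorem height_wf : WellFoundedLT T := by
  constructor
  rw [WellFounded.wellFounded_iff_has_min]
  intro s ⟨t, ht⟩
  obtain ⟨m, hm, hmin⟩ := hT.tree.wo t (s ∩ Iic t) inter_subset_right ⟨t, ht, le_refl t⟩
  refine ⟨m, hm.1, fun x hx hxm => ?_⟩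
  have := hmin x ⟨hx, hxm.le.trans hm.2⟩
  exact absurd hxm (not_lt_of_ge this)

theorem height_ctbl (t : T) : (Iio t).Countable := by
  have hc : IsChain (fun x y => x ≤ y) (Iio t) := by
    intro a ha b hb _
    exact height_chain hT t a b ha.le hb.le
  obtain ⟨M, hM, hsub⟩ := hc.exists_maxChain
  exact (hT.branches M hM).mono hsub

end

theorem exists_height (T : Type u) [PartialOrder T] (hT : IsAronszajnTree T) (G : SimpleGraph T)
    (hG : IsTreeGraph G) : ∃ h : T → Om, TreeData h G := by
  have := height_wf hT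
  let r : T → Ordinal.{u} := IsWellFounded.rank (fun x y : T => x < y)
  have hr_mono : ∀ x y : T, x < y → r x < r y := fun x y h =>
    IsWellFounded.rank_lt_of_rel (r := fun x y : T => x < y) h
  have hr_eq : ∀ t : T, r t = ⨆ b : {b // b < t}, Order.succ (r b) := fun t =>
    IsWellFounded.rank_eq (r := fun x y : T => x < y) t
  have hr_lt : ∀ t : T, r t < ω₁ := by
    intro t
    induction t using WellFoundedLT.induction with
    | ind t ih =>
      rw [hr_eq]
      have : Countable {b // b < t} := (height_ctbl hT t).to_subtype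
      apply Ordinal.iSup_lt_omega_one
      rintro ⟨b, hb⟩
      have h1 := ih b hb
      have h2 : Order.IsSuccLimit (ω₁ : Ordinal.{u}) := by
        rw [← Cardinal.ord_aleph]
        exact Cardinal.isSuccLimit_ord (Cardinal.aleph0_le_aleph 1)
      exact h2.succ_lt h1
  have hr_restr : ∀ (y : T) (a : Ordinal.{u}), a ≤ r y → ∃ x ≤ y, r x = a := by
    intro y
    induction y using WellFoundedLT.induction with
    | ind y ih =>
      intro a ha
      rcases ha.eq_or_lt with h | h
      · exact ⟨y, le_rfl, h.symm⟩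
      · rw [hr_eq, Ordinal.lt_iSup_iff] at h
        obtain ⟨⟨b, hb⟩, hab⟩ := h
        obtain ⟨x, hx, hxa⟩ := ih b hb a (Order.lt_succ_iff.1 hab)
        exact ⟨x, hx.trans hb.le, hxa⟩
  have hdown : ∀ t : T, ∃ o : Om, Ordinal.lift.{u} o.1 = r t := by
    intro t
    have h1 : r t ≤ Ordinal.lift.{u} (ω₁ : Ordinal.{0}) := by
      have : Ordinal.lift.{u} (ω₁ : Ordinal.{0}) = ω₁ := by simp
      rw [this]
      exact (hr_lt t).le
    obtain ⟨o, ho⟩ := Ordinal.mem_range_lift_of_le h1
    refine ⟨⟨o, ?_⟩, ho⟩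
    have := hr_lt t
    rw [← ho, Ordinal.lift_lt_omega_one] at this
    exact this
  choose h hh using hdown
  have hlt : ∀ x y : T, h x < h y ↔ r x < r y := by
    intro x y
    rw [← hh, ← hh, Ordinal.lift_lt]
    rfl
  have hrestr : ∀ (y : T) (a : Om), a ≤ h y → ∃ x ≤ y, h x = a := by
    intro y a ha
    obtain ⟨x, hx, hxa⟩ := hr_restr y (Ordinal.lift.{u} a.1) (by
      rw [← hh, Ordinal.lift_le]
      exact ha)
    refine ⟨x, hx, ?_⟩
    rw [← hh, Ordinal.lift_inj] at hxa
    exact Subtype.ext hxa
  have hlevel : ∀ b : Om, {x | h x = b}.Countable := by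
    intro b
    refine (hT.levels (Ordinal.lift.{u} b.1)).mono ?_
    intro t ht
    have htb : r t = Ordinal.lift.{u} b.1 := by
      rw [← hh, show h t = b from ht]
    refine ⟨?_⟩
    rw [← htb]
    have hinj : Function.Injective (fun x : Iio t => (⟨r x.1, hr_mono x.1 t x.2⟩ : Iio (r t))) := by
      intro x y hxy
      have hxy' : r x.1 = r y.1 := congrArg Subtype.val hxy
      rcases height_chain hT t x.1 y.1 x.2.le y.2.le with h1 | h1
      · rcases h1.eq_or_lt with h2 | h2
        · exact Subtype.ext h2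
        · exact absurd hxy' (hr_mono _ _ h2).ne
      · rcases h1.eq_or_lt with h2 | h2
        · exact Subtype.ext h2.symm
        · exact absurd hxy'.symm (hr_mono _ _ h2).ne
    have hsurj : Function.Surjective
        (fun x : Iio t => (⟨r x.1, hr_mono x.1 t x.2⟩ : Iio (r t))) := by
      rintro ⟨a, ha⟩
      obtain ⟨x, hx, hxa⟩ := hr_restr t a (le_of_lt ha)
      have hxt : x < t := by
        rcases hx.eq_or_lt with h2 | h2
        · exfalso
          have ha' : a < r t := ha
          rw [← hxa, h2] at ha'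
          exact lt_irrefl _ ha'
        · exact h2
      exact ⟨⟨x, hxt⟩, Subtype.ext hxa⟩
    refine ⟨Equiv.ofBijective _ ⟨hinj, hsurj⟩, ?_⟩
    intro x y
    show r x.1 ≤ r y.1 ↔ x ≤ y
    constructor
    · intro hxy
      rcases height_chain hT t x.1 y.1 x.2.le y.2.le with h1 | h1
      · exact h1
      · rcases h1.eq_or_lt with h2 | h2
        · exact h2.symm.le
        · exact absurd hxy (not_le_of_gt (hr_mono _ _ h2))
    · intro hxy
      rcases hxy.eq_or_lt with h2 | h2
      · rw [h2]
      · exact (hr_mono _ _ h2).le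
  have hctbl : ∀ a : Om, {x | h x < a}.Countable := by
    intro a
    have h1 : {x | h x < a} = ⋃ b ∈ Iio a, {x | h x = b} := by
      ext x
      simp only [mem_iUnion, exists_prop]
      constructor
      · intro hx
        exact ⟨h x, hx, rfl⟩
      · rintro ⟨b, hb, hx⟩
        have hx' : h x = b := hx
        show h x < a
        rw [hx']
        exact hb
    rw [h1]
    exact (height_ctbl_Iio a).biUnion fun b _ => hlevel b
  refine ⟨h, ⟨height_chain hT, fun x y hxy => (hlt x y).2 (hr_mono x y hxy), hrestr, hctbl, ?_,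
    hG.comparable, hG.cofinal⟩⟩
  intro a
  by_contra hcon
  have h1 : (univ : Set T) ⊆ {x | h x < a} := by
    intro y _
    by_contra hy
    obtain ⟨x, -, hx⟩ := hrestr y a (not_lt.1 hy)
    exact hcon ⟨x, hx⟩
  have h2 : (univ : Set T).Countable := (hctbl a).mono h1
  have h3 : #T ≤ ℵ₀ := by
    rw [Cardinal.mk_le_aleph0_iff]
    exact countable_univ_iff.1 h2
  rw [hT.size] at h3
  exact absurd h3 (not_le_of_gt Cardinal.aleph0_lt_aleph_one)

end Pool.Agent.AT
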