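import Pool.Agent.Work.MP_1b6412_co.Defs2

/-! Stationary sets in terms of closure points of functions. -/

set_option autoImplicit false

open Set Cardinal Ordinal

namespace Pool.Agent.AT

universe u v w

theorem omLike_Om : OmLike Om where
  ctbl a := by
    have h1 : (Iio a.1).Countable := by
      rw [← Cardinal.le_aleph0_iff_set_countable, Cardinal.mk_Iio_ordinal, Cardinal.lift_le_aleph0]
      have h2 : a.1 < (ℵ₁).ord := by
        rw [Cardinal.ord_aleph]; exact a.2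
      rw [Cardinal.lt_ord, ← Cardinal.succ_aleph0, Order.lt_succ_iff] at h2
      exact h2
    have h3 : Iio a = Subtype.val ⁻¹' (Iio a.1) := rfl
    rw [h3]
    exact h1.preimage Subtype.val_injective
  bdd s hs := by
    have hc : Countable s := hs.to_subtype
    have hlt : ∀ x : s, Order.succ x.1.1 < ω₁ := fun x =>
      (Cardinal.isSuccLimit_omega 1).succ_lt x.1.2
    refine ⟨⟨⨆ x : s, Order.succ x.1.1, Ordinal.iSup_lt_omega_one hlt⟩, ?_⟩
    intro a ha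
    change a.1 < _
    exact (Order.lt_succ a.1).trans_le (Ordinal.le_iSup (fun x : s => Order.succ x.1.1) ⟨a, ha⟩)

theorem Stat.mono {Ω : Type v} [LinearOrder Ω] {S S' : Set Ω} (hS : Stat S) (h : S ⊆ S') :
    Stat S' := by
  intro F
  obtain ⟨s, hs, h1, h2⟩ := hS F
  exact ⟨s, h hs, h1, h2⟩

theorem Stat.unbdd {Ω : Type v} [LinearOrder Ω] {S : Set Ω} (hS : Stat S) (a : Ω) :
    ∃ s ∈ S, a < s := by
  obtain ⟨s, hs, ⟨b, hb⟩, h2⟩ := hS fun _ => a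
  exact ⟨s, hs, h2 b hb⟩

theorem Stat.split {Ω : Type v} [LinearOrder Ω] {S : Set Ω} (hS : Stat S) (A : Set Ω) :
    Stat (S ∩ A) ∨ Stat (S \ A) := by
  by_contra h
  rw [not_or] at h
  obtain ⟨h1, h2⟩ := h
  unfold Stat at h1 h2
  push Not at h1 h2
  obtain ⟨F, hF⟩ := h1
  obtain ⟨G, hG⟩ := h2
  obtain ⟨s, hs, ⟨b, hb⟩, hcl⟩ := hS fun a => max (F a) (G a)
  by_cases hA : s ∈ A
  · obtain ⟨a, ha, hle⟩ := hF s ⟨hs, hA⟩ ⟨b, hb⟩
    exact absurd (lt_of_le_of_lt (le_max_left _ _) (hcl a ha)) (not_lt.mpr hle)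
  · obtain ⟨a, ha, hle⟩ := hG s ⟨hs, hA⟩ ⟨b, hb⟩
    exact absurd (lt_of_le_of_lt (le_max_right _ _) (hcl a ha)) (not_lt.mpr hle)

theorem Stat.closed {Ω : Type v} [LinearOrder Ω] {S : Set Ω} (hS : Stat S) (F : Ω → Ω) :
    Stat {s ∈ S | ∀ a < s, F a < s} := by
  intro G
  obtain ⟨s, hs, hne, hcl⟩ := hS fun a => max (F a) (G a)
  exact ⟨s, ⟨hs, fun a ha => lt_of_le_of_lt (le_max_left _ _) (hcl a ha)⟩, hne,
    fun a ha => lt_of_le_of_lt (le_max_right _ _) (hcl a ha)⟩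

theorem OmLike.countable_Iic {Ω : Type v} [LinearOrder Ω] (hΩ : OmLike Ω) (a : Ω) :
    (Iic a).Countable := by
  obtain ⟨b, hb⟩ := hΩ.bdd {a} (countable_singleton a)
  exact (hΩ.ctbl b).mono fun x hx => lt_of_le_of_lt hx (hb a rfl)

theorem Stat.fodor {Ω : Type v} [LinearOrder Ω] (hΩ : OmLike Ω) {D : Type w} (hD : D → Ω)
    (hc : ∀ a, {d | hD d < a}.Countable) {S : Set Ω} (hS : Stat S) (g : Ω → D)
    (hg : ∀ s ∈ S, hD (g s) < s) : ∃ d, Stat {s ∈ S | g s = d} := by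
  by_contra h
  push Not at h
  have h1 : ∀ d, ∃ F : Ω → Ω, ∀ s ∈ {s ∈ S | g s = d}, (∃ a, a < s) → ∃ a, a < s ∧ s ≤ F a := by
    intro d
    have h2 := h d
    unfold Stat at h2
    push Not at h2
    exact h2
  choose Fd hFd using h1
  have hcD : ∀ a, {d | hD d ≤ a}.Countable := by
    intro a
    obtain ⟨b, hb⟩ := hΩ.bdd {a} (countable_singleton a)
    exact (hc b).mono fun d hd => lt_of_le_of_lt hd (hb a rfl)
  have hB : ∀ a, ∃ b, ∀ x ∈ (fun p : D × Ω => Fd p.1 p.2) '' ({d | hD d ≤ a} ×ˢ Iic a), x < b :=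
    fun a => hΩ.bdd _ (((hcD a).prod (hΩ.countable_Iic a)).image _)
  choose F hF using hB
  obtain ⟨s, hs, hne, hcl⟩ := hS F
  obtain ⟨a, ha, hle⟩ := hFd (g s) s ⟨hs, rfl⟩ hne
  have hm : max a (hD (g s)) < s := max_lt ha (hg s hs)
  have h3 : Fd (g s) a < F (max a (hD (g s))) :=
    hF (max a (hD (g s))) _ ⟨(g s, a), ⟨le_max_right _ _, le_max_left _ _⟩, rfl⟩
  exact absurd (h3.trans (hcl _ hm)) (not_lt.mpr hle)

theorem Stat.isStationary {Ω : Type v} [LinearOrder Ω] {S : Set Ω} (hS : Stat S) :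
    IsStationary S := by
  intro t ht
  have h1 : ∀ a : Ω, ∃ x ∈ t, a < x := by
    intro a
    obtain ⟨s, _, hs⟩ := hS.unbdd a
    obtain ⟨x, hx, hsx⟩ := ht.isCofinal s
    exact ⟨x, hx, lt_of_lt_of_le hs hsx⟩
  choose F hFt hF using h1
  obtain ⟨s, hs, ⟨b, hb⟩, hcl⟩ := hS F
  refine ⟨s, hs, ?_⟩
  refine ht.isLUB_mem (t := F '' Iio s) ?_ ⟨F b, b, hb, rfl⟩ ⟨?_, ?_⟩
  · rintro _ ⟨a, _, rfl⟩
    exact hFt a
  · rintro _ ⟨a, ha, rfl⟩
    exact (hcl a ha).le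
  · intro c hc
    by_contra hlt
    rw [not_le] at hlt
    exact absurd (hc ⟨c, hlt, rfl⟩) (not_le.mpr (hF c))

theorem exists_lim_fun {Ω : Type v} [LinearOrder Ω] [WellFoundedLT Ω] (hΩ : OmLike Ω) (F : Ω → Ω) :
    ∃ F' : Ω → Ω, (∀ a, a < F' a) ∧ (∀ a, F a ≤ F' a) ∧ ∀ s, (∀ a < s, F' a < s) →
      ∀ b < s, ∃ c, b < c ∧ c < s ∧ ∀ a < c, F a < c := by
  have h1 : ∀ b : Ω, ∃ b', b < b' ∧ ∀ a ≤ b, F a < b' := by
    intro b
    obtain ⟨b', hb'⟩ := hΩ.bdd (insert b (F '' Iic b))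
      (((hΩ.countable_Iic b).image F).insert b)
    exact ⟨b', hb' b (mem_insert _ _), fun a ha => hb' _ (mem_insert_of_mem _ ⟨a, ha, rfl⟩)⟩
  choose N hN1 hN2 using h1
  have h2 : ∀ b : Ω, ∃ c, b < c ∧ ∀ a < c, F a < c := by
    intro b
    set it : ℕ → Ω := fun n => N^[n] b with hit
    have hne : {c : Ω | ∀ n, it n < c}.Nonempty := by
      obtain ⟨c, hc⟩ := hΩ.bdd (range it) (countable_range it)
      exact ⟨c, fun n => hc _ ⟨n, rfl⟩⟩
    obtain ⟨c, hc, hmin⟩ := WellFounded.has_min (wellFounded_lt (α := Ω)) _ hne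
    refine ⟨c, hc 0, ?_⟩
    intro a ha
    have h3 : ∃ n, a ≤ it n := by
      by_contra h
      push Not at h
      exact hmin a h ha
    obtain ⟨n, hn⟩ := h3
    have h4 : F a < it (n + 1) := by
      rw [hit]
      simp only [Function.iterate_succ_apply']
      exact hN2 _ a hn
    exact h4.trans (hc (n + 1))
  choose C hC1 hC2 using h2
  have h3 : ∀ b : Ω, ∃ b', b < b' ∧ F b < b' ∧ C b < b' := by
    intro b
    obtain ⟨b', hb'⟩ := hΩ.bdd {b, F b, C b} ((Set.finite_singleton _).insert _ |>.insert _).countable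
    exact ⟨b', hb' _ (by simp), hb' _ (by simp), hb' _ (by simp)⟩
  choose F' h4 h5 h6 using h3
  exact ⟨F', h4, fun a => (h5 a).le, fun s hs b hb =>
    ⟨C b, hC1 b, (h6 b).trans (hs b hb), hC2 b⟩⟩

end Pool.Agent.AT
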