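import Pool.Agent.Work.MP_1b6412_co.Core
import Pool.Agent.Work.MP_1b6412_co.AlephMinor
import Pool.Agent.Work.MP_1b6412_co.Forest
import Pool.Agent.Work.MP_1b6412_co.Graph
import Pool.Agent.Work.MP_1b6412_co.Height
import Pool.Agent.Work.MP_1b6412_co.Omega
import Pool.Agent.Work.MP_1b6412_co.Assemble

/-! The dichotomy for MP_1b6412_co: every Aronszajn tree graph has one of the two minors. -/

set_option autoImplicit false
open Set Cardinal Ordinal
namespace Pool.Agent.AT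
universe u v w

theorem union_connected {T : Type u} {D : Type w} (G : SimpleGraph T) (V : D → Set T)
    (C : Set D) (r : D) (hr : r ∈ C) (p : D → D) (dep : D → ℕ)
    (hV : ∀ d, (G.induce (V d)).Connected)
    (hp : ∀ d ∈ C, d ≠ r → p d ∈ C ∧ dep (p d) < dep d ∧ ∃ a ∈ V (p d), ∃ b ∈ V d, G.Adj a b) :
    (G.induce (⋃ d ∈ C, V d)).Connected := by
  have hsub : ∀ d ∈ C, V d ⊆ ⋃ d ∈ C, V d := fun d hd x hx => mem_biUnion hd hx
  have hre : ∀ d (hd : d ∈ C) (x y : T) (hx : x ∈ V d) (hy : y ∈ V d),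
      (G.induce (⋃ d ∈ C, V d)).Reachable ⟨x, hsub d hd hx⟩ ⟨y, hsub d hd hy⟩ := by
    intro d hd x y hx hy
    have h1 := (hV d).preconnected ⟨x, hx⟩ ⟨y, hy⟩
    have h2 := h1.map (SimpleGraph.induceHomOfLE G (hsub d hd)).toHom
    exact h2
  obtain ⟨⟨x0, hx0⟩⟩ := (hV r).nonempty
  have key : ∀ (n : ℕ) (d : D) (hd : d ∈ C), dep d = n → ∀ (x : T) (hx : x ∈ V d),
      (G.induce (⋃ d ∈ C, V d)).Reachable ⟨x0, hsub r hr hx0⟩ ⟨x, hsub d hd hx⟩ := by
    intro n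
    induction n using Nat.strong_induction_on with
    | _ n ih =>
      intro d hd hn x hx
      by_cases hdr : d = r
      · subst hdr
        exact hre _ hd _ _ hx0 hx
      · obtain ⟨h1, h2, a, ha, b, hb, hab⟩ := hp d hd hdr
        have i1 := ih (dep (p d)) (hn ▸ h2) (p d) h1 rfl a ha
        have i2 : (G.induce (⋃ d ∈ C, V d)).Adj ⟨a, hsub _ h1 ha⟩ ⟨b, hsub _ hd hb⟩ := hab
        exact (i1.trans i2.reachable).trans (hre d hd b x hb hx)
  have : Nonempty (⋃ d ∈ C, V d : Set T) := ⟨⟨x0, hsub r hr hx0⟩⟩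
  refine SimpleGraph.Connected.mk ?_
  rintro ⟨x, hx⟩ ⟨y, hy⟩
  obtain ⟨d, hd, hxd⟩ := mem_iUnion₂.1 hx
  obtain ⟨e, he, hye⟩ := mem_iUnion₂.1 hy
  exact (key _ d hd rfl x hxd).symm.trans (key _ e he rfl y hye)

theorem dichotomy (T : Type u) [PartialOrder T] (hT : IsAronszajnTree T) (G : SimpleGraph T)
    (hG : IsTreeGraph G) :
    (∃ (A B : Type u) (H : SimpleGraph (A ⊕ B)), IsAlephGraph H ∧ IsMinor H G) ∨
    (∃ (S : Set Om) (f : Om → ℕ → Om) (K : SimpleGraph SeqTree),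
      IsStationary S ∧ (∀ s ∈ S, Order.IsSuccLimit s ∧ IsCofinalIn (f s) s) ∧
      IsTreeGraph K ∧ IsMinor (K.induce (vertexSet S f)) G) := by
  classical
  obtain ⟨h, hD⟩ := exists_height T hT G hG
  by_cases hK : ∀ x, {z | x ≤ z ∧ {y | y < x ∧ Al G y z}.Infinite}.Countable
  swap
  · left
    push Not at hK
    obtain ⟨x, hx⟩ := hK
    exact aleph_minor omLike_Om hD hT.size x hx
  right
  obtain ⟨D, V, S, t, R, N, hS, hV, ht, hVV, hVt, htt, hR, hfin, htr, hinj, hN⟩ :=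
    core omLike_Om hD hK
  obtain ⟨p, dep, hp, hbr⟩ := exists_forest (D := D) (fun d : D => h d) (fun d e => R d e)
    (fun d e hde => (hR d d.2 e e.2 hde).1)
    (by
      intro e
      refine ((hfin e e.2).preimage (f := (Subtype.val : D → T))
        Subtype.val_injective.injOn).subset ?_
      intro d hd
      exact ⟨d.2, hd⟩)
    (fun d e c h1 h2 h3 => htr d d.2 e e.2 c c.2 h1 h2 h3)
    (fun d e c h1 h2 h3 => Subtype.ext (hinj d d.2 e e.2 c c.2 h1 h2 h3))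
  -- the branches
  have hbr' : ∀ s ∈ S, ∃ b : ℕ → D, (∀ n, dep (b n) = n) ∧ (∀ n, p (b (n + 1)) = b n) ∧
      (∀ d : D, (d : T) ∈ N s → ∃ n, b n = d) := by
    intro s hs
    obtain ⟨h1, h2, h3, h4, h5, h6⟩ := hN s hs
    exact hbr {d : D | (d : T) ∈ N s}
      (h2.preimage (by rw [Subtype.range_coe]; exact h1))
      (fun d hd e he hde => h5 d hd e he hde)
      (fun d hd e he hde => Subtype.ext (h6 d hd e he hde))
  have : Nonempty (ℕ → D) := by
    obtain ⟨s, hs, _⟩ := hS (fun a => a)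
    obtain ⟨b, _⟩ := hbr' s hs
    exact ⟨b⟩
  choose! b b0 b1 b2 using hbr'
  have hI : ∀ s ∈ S, {n | (b s n : T) ∈ N s}.Infinite := by
    intro s hs hf
    obtain ⟨h1, h2, h3, h4, h5, h6⟩ := hN s hs
    apply h2
    refine (hf.image (fun n => (b s n : T))).subset ?_
    intro d hd
    obtain ⟨n, hn⟩ := b2 s hs ⟨d, h1 hd⟩ hd
    exact ⟨n, by rw [Set.mem_ofPred_eq, hn]; exact hd, by show (b s n : T) = d; rw [hn]⟩
  have hstep : ∀ s ∈ S, ∀ n, h (b s n) ≤ h (b s (n + 1)) := by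
    intro s hs n
    have h1 := (hp (b s (n + 1)) (by rw [b0 s hs]; omega)).1
    rw [b1 s hs] at h1
    exact (hR _ (b s n).2 _ (b s (n + 1)).2 h1).1.le
  have hmono : ∀ s ∈ S, ∀ n m, n ≤ m → h (b s n) ≤ h (b s m) := by
    intro s hs n m hnm
    induction m, hnm using Nat.le_induction with
    | base => exact le_rfl
    | succ m _ ih => exact ih.trans (hstep s hs m)
  have hb2 : ∀ s ∈ S, ∀ n, h (b s n) < s := by
    intro s hs n
    obtain ⟨m, hm, hnm⟩ := (hI s hs).exists_gt n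
    exact (hmono s hs n m hnm.le).trans_lt ((hN s hs).2.2.1 _ hm).1
  have hb3 : ∀ s ∈ S, ∀ a < s, ∃ n, a ≤ h (b s n) := by
    intro s hs a ha
    obtain ⟨d, hd, had⟩ := (hN s hs).2.2.2.1 a ha
    obtain ⟨n, hn⟩ := b2 s hs ⟨d, (hN s hs).1 hd⟩ hd
    exact ⟨n, by rw [hn]; exact had⟩
  obtain ⟨C, r, S', f, hr, hC, hCC, hadj, hSS, hS', hf⟩ := assemble omLike_Om
    (fun d : D => h d) (fun a => (hD.ctbl a).preimage Subtype.val_injective) p dep
    (fun d hd => ⟨(hR _ (p d).2 _ d.2 (hp d hd).1).1, (hp d hd).2⟩) S hS b b0 b1 hb2 hb3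
  obtain ⟨K, hK1, hK2⟩ := graph_minor G (fun l => ⋃ d ∈ C l, V (d : D)) t S' f
    (fun l => union_connected G (fun d : D => V d) (C l) (r l) (hr l) p dep
      (fun d => hV d d.2) (by
        intro d hd hdr
        obtain ⟨h1, h2⟩ := hC l d hd hdr
        have h3 := hp d h1
        exact ⟨h2, by omega, (hR _ (p d).2 _ d.2 h3.1).2⟩))
    (fun s hs => ht s (hSS hs))
    (by
      intro l m hlm
      rw [Set.disjoint_left]
      intro x hx hy
      obtain ⟨d, hd, hxd⟩ := mem_iUnion₂.1 hx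
      obtain ⟨e, he, hye⟩ := mem_iUnion₂.1 hy
      have hde : (d : T) ≠ e := by
        intro h0
        have : d = e := Subtype.ext h0
        subst this
        exact Set.disjoint_left.1 (hCC l m hlm) hd he
      exact Set.disjoint_left.1 (hVV d d.2 e e.2 hde) hxd hye)
    (by
      intro l s hs
      rw [Set.disjoint_left]
      intro x hx hy
      obtain ⟨d, hd, hxd⟩ := mem_iUnion₂.1 hx
      exact Set.disjoint_left.1 (hVt d d.2 s (hSS hs)) hxd hy)
    (fun s hs s' hs' hss => htt s (hSS hs) s' (hSS hs') hss)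
    (by
      intro l a
      obtain ⟨h1, h2⟩ := hadj l a
      obtain ⟨_, x, hx, y, hy, hxy⟩ := hR _ (p (r (l ++ [a]))).2 _ (r (l ++ [a])).2 (hp _ h1).1
      exact ⟨x, mem_biUnion h2 hx, y, mem_biUnion (hr _) hy, hxy⟩)
    (by
      intro s hs
      refine ((hf s hs).2.2.2 _ (hI s (hSS hs))).mono ?_
      rintro j ⟨n, hn, hnj⟩
      obtain ⟨_, x, hx, y, hy, hxy⟩ := (hN s (hSS hs)).2.2.1 _ hn
      exact ⟨x, hx, y, mem_biUnion hnj hy, hxy⟩)
    (fun s hs => ⟨(hf s hs).1, (hf s hs).2.1⟩)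

  refine ⟨S', f, K, hS'.isStationary, ?_, hK1, hK2⟩
  intro s hs
  obtain ⟨h1, h2, h3, _⟩ := hf s hs
  refine ⟨⟨?_, ?_⟩, h1, h2⟩
  · intro hmin
    exact absurd (h1 0) (not_lt.2 (hmin (h1 0).le))
  · intro a ha
    obtain ⟨c, hc1, hc2⟩ := h3 a ha.lt
    exact ha.2 hc1 hc2

end Pool.Agent.AT
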